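import Mathlib
import Pool.Agent.Helper82.Kneser

/-!
# `j`-fold sumsets and the iterated Kneser theorem
-/

set_option autoImplicit false

open scoped Pointwise

namespace Pool.Agent.Helper20.Span

open Pool.Agent.Helper82.Kneser

variable {G : Type*} [AddCommGroup G] [DecidableEq G]

/-- The `j`-fold sumset of `A`. -/
def ns (A : Finset G) : ℕ → Finset G
  | 0 => {0}
  | j + 1 => ns A j + A

lemma ns_zero (A : Finset G) : ns A 0 = {0} := rfl

lemma ns_succ (A : Finset G) (j : ℕ) : ns A (j + 1) = ns A j + A := rfl

lemma ns_one (A : Finset G) : ns A 1 = A := by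
  rw [ns_succ, ns_zero, Finset.singleton_zero, zero_add]

lemma ns_nonempty {A : Finset G} (hA : A.Nonempty) (j : ℕ) : (ns A j).Nonempty := by
  induction j with
  | zero => exact ⟨0, by simp [ns_zero]⟩
  | succ j ih => exact ih.add hA

lemma ns_add (A : Finset G) (i j : ℕ) : ns A (i + j) = ns A i + ns A j := by
  induction j with
  | zero =>
    rw [ns_zero, Finset.singleton_zero]
    exact (add_zero (ns A i)).symm
  | succ j ih => rw [← add_assoc, ns_succ, ns_succ, ih, add_assoc]

lemma ns_mono {A B : Finset G} (h : A ⊆ B) (j : ℕ) : ns A j ⊆ ns B j := by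
  induction j with
  | zero => exact Finset.Subset.refl _
  | succ j ih => exact Finset.add_subset_add ih h

lemma mem_ns_iff (A : Finset G) (j : ℕ) (x : G) :
    x ∈ ns A j ↔ ∃ f : Fin j → G, (∀ i, f i ∈ A) ∧ ∑ i, f i = x := by
  induction j generalizing x with
  | zero =>
    rw [ns_zero, Finset.mem_singleton]
    constructor
    · rintro rfl
      exact ⟨Fin.elim0, fun i => i.elim0, by simp⟩
    · rintro ⟨f, -, rfl⟩
      simp
  | succ j ih =>
    rw [ns_succ, Finset.mem_add]
    constructor
    · rintro ⟨y, hy, z, hz, rfl⟩
      obtain ⟨f, hf, rfl⟩ := (ih y).1 hy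
      refine ⟨Fin.snoc (α := fun _ => G) f z, ?_, ?_⟩
      · intro i
        refine Fin.lastCases ?_ ?_ i
        · simpa using hz
        · intro i; simpa using hf i
      · rw [Fin.sum_univ_castSucc]
        simp
    · rintro ⟨f, hf, rfl⟩
      refine ⟨∑ i : Fin j, f i.castSucc, (ih _).2 ⟨fun i => f i.castSucc, fun i => hf _, rfl⟩,
        f (Fin.last j), hf _, ?_⟩
      rw [Fin.sum_univ_castSucc]

/-- a finite set which is a subgroup acts trivially on a periodic set -/
lemma add_stab {C : Finset G} (hC : C.Nonempty) : C + stab C = C := by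
  apply Finset.Subset.antisymm
  · intro x hx
    obtain ⟨a, ha, b, hb, rfl⟩ := Finset.mem_add.1 hx
    rw [add_comm]
    exact add_mem_of_mem_stab hb ha
  · intro x hx
    exact Finset.mem_add.2 ⟨x, hx, 0, zero_mem_stab hC, by simp⟩

lemma sub_add_self {H : Finset G} (hH : IsSub H) : H + H = H := by
  apply Finset.Subset.antisymm
  · intro x hx
    obtain ⟨a, ha, b, hb, rfl⟩ := Finset.mem_add.1 hx
    exact hH.add ha hb
  · intro x hx
    exact Finset.mem_add.2 ⟨x, hx, 0, hH.zero, by simp⟩

lemma subset_add_sub {H : Finset G} (hH : IsSub H) (A : Finset G) : A ⊆ A + H := by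
  intro x hx
  exact Finset.mem_add.2 ⟨x, hx, 0, hH.zero, by simp⟩

/-- **Iterated Kneser theorem.** -/
theorem kneser_iter {X Y : Finset G} (hX : X.Nonempty) (hY : Y.Nonempty) (j : ℕ) :
    (X + stab (X + ns Y j)).card + j * (Y + stab (X + ns Y j)).card ≤
      (X + ns Y j).card + j * (stab (X + ns Y j)).card := by
  set S := stab (X + ns Y j) with hS
  have hne : (X + ns Y j).Nonempty := hX.add (ns_nonempty hY j)
  have hSs : IsSub S := isSub_stab hne
  have hSne : S.Nonempty := ⟨0, hSs.zero⟩
  have key : ∀ i ≤ j, (X + S).card + i * (Y + S).card ≤ (X + ns Y i + S).card + i * S.card := by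
    intro i
    induction i with
    | zero =>
      intro _
      rw [ns_zero, Finset.singleton_zero, add_zero]
      simp
    | succ i ih =>
      intro hi
      have h1 := ih (by omega)
      have hsum : (X + ns Y i + S) + (Y + S) = X + ns Y (i + 1) + S := by
        rw [ns_succ, add_add_add_comm, sub_add_self hSs, add_assoc X]
      have hne1 : (X + ns Y i + S).Nonempty := (hX.add (ns_nonempty hY i)).add hSne
      have hne2 : (Y + S).Nonempty := hY.add hSne
      have hk := kneser hne1 hne2
      rw [hsum] at hk
      have hne3 : (X + ns Y (i + 1) + S).Nonempty := (hX.add (ns_nonempty hY (i + 1))).add hSne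
      have hst : stab (X + ns Y (i + 1) + S) = S := by
        apply Finset.Subset.antisymm
        · intro g hg
          rw [hS, mem_stab hne]
          intro x hx
          have hdec : X + ns Y j = (X + ns Y (i + 1) + S) + ns Y (j - (i + 1)) := by
            have h2 : X + ns Y j = X + ns Y j + S := (add_stab hne).symm
            have h3 : ns Y j = ns Y (i + 1) + ns Y (j - (i + 1)) := by
              rw [← ns_add]; congr 1; omega
            rw [h2, h3]
            rw [← add_assoc X, add_assoc (X + ns Y (i + 1)) (ns Y (j - (i + 1))) S,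
              add_comm (ns Y (j - (i + 1))) S, ← add_assoc]
          rw [hdec] at hx ⊢
          obtain ⟨y, hy, z, hz, rfl⟩ := Finset.mem_add.1 hx
          rw [← add_assoc]
          exact Finset.add_mem_add ((mem_stab hne3).1 hg y hy) hz
        · intro g hg
          rw [mem_stab hne3]
          intro x hx
          obtain ⟨y, hy, z, hz, rfl⟩ := Finset.mem_add.1 hx
          rw [add_left_comm]
          exact Finset.add_mem_add hy (hSs.add hg hz)
      rw [hst] at hk
      have h4 : X + ns Y i + S + S = X + ns Y i + S := by
        rw [add_assoc, sub_add_self hSs]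
      have h5 : Y + S + S = Y + S := by rw [add_assoc, sub_add_self hSs]
      rw [h4, h5] at hk
      have e1 : (i + 1) * (Y + S).card = i * (Y + S).card + (Y + S).card := by ring
      have e2 : (i + 1) * S.card = i * S.card + S.card := by ring
      rw [e1, e2]
      omega
  have h := key j le_rfl
  have h2 : X + ns Y j + S = X + ns Y j := add_stab hne
  rw [h2] at h
  exact h

end Pool.Agent.Helper20.Span
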