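import Mathlib
import Pool.Agent.Helper20.Span.Basic

/-!
# A Vosper theorem for finite abelian groups

`vosper`: let `S` be a subset of a finite abelian group `G` with `|S + P| ≥ |S| + |P|` for every
proper non-trivial subgroup `P`. If there is a set `X` with `|X| ≥ 2`, `|X + S| ≤ |G| - 2` and
`|X + S| ≤ |X| + |S| - 1`, then `S` is an arithmetic progression whose difference generates `G`.
The proof uses the 2-atoms of Hamidoune.
-/

set_option autoImplicit false

open scoped Pointwise

namespace Pool.Agent.Helper20.Span

open Pool.Agent.Helper82.Kneser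

variable {G : Type*} [AddCommGroup G] [DecidableEq G] [Fintype G]

/-- translate -/
def tr (M : Finset G) (x : G) : Finset G := M.image (fun y => y + x)

omit [Fintype G] in
lemma mem_tr {M : Finset G} {x y : G} : y ∈ tr M x ↔ y - x ∈ M := by
  unfold tr
  rw [Finset.mem_image]
  constructor
  · rintro ⟨z, hz, rfl⟩
    simpa using hz
  · intro h
    exact ⟨y - x, h, by abel⟩

omit [Fintype G] in
lemma card_tr (M : Finset G) (x : G) : (tr M x).card = M.card :=
  Finset.card_image_of_injective _ (add_left_injective x)

omit [Fintype G] in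
lemma tr_zero (M : Finset G) : tr M 0 = M := by
  ext y
  rw [mem_tr, sub_zero]

omit [Fintype G] in
lemma tr_add (M S : Finset G) (x : G) : tr M x + S = tr (M + S) x := by
  ext y
  rw [mem_tr, Finset.mem_add, Finset.mem_add]
  constructor
  · rintro ⟨a, ha, b, hb, rfl⟩
    rw [mem_tr] at ha
    exact ⟨a - x, ha, b, hb, by abel⟩
  · rintro ⟨a, ha, b, hb, h⟩
    refine ⟨a + x, ?_, b, hb, ?_⟩
    · rw [mem_tr]; simpa using ha
    · have : y = a + b + x := by rw [h]; abel
      rw [this]; abel

/-- every translate of `M` is `M` or meets `M` in at most one element -/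
def Atomic (M : Finset G) : Prop := ∀ x, tr M x = M ∨ (M ∩ tr M x).card ≤ 1

/-- **Existence of 2-atoms** with the intersection property. -/
lemma exists_atom {S X : Finset G} (hS : S.Nonempty) (hX : 2 ≤ X.card)
    (h1 : (X + S).card + 2 ≤ Fintype.card G) (h2 : (X + S).card + 1 ≤ X.card + S.card) :
    ∃ M : Finset G, 2 ≤ M.card ∧ (M + S).card + 2 ≤ Fintype.card G ∧
      (M + S).card + 1 ≤ M.card + S.card ∧ Atomic M := by
  classical
  have hle : ∀ Y : Finset G, Y.card ≤ (Y + S).card := by
    intro Y
    obtain ⟨s, hs⟩ := hS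
    calc Y.card = (tr Y s).card := (card_tr Y s).symm
      _ ≤ (Y + S).card := by
        apply Finset.card_le_card
        intro y hy
        rw [mem_tr] at hy
        exact Finset.mem_add.2 ⟨y - s, hy, s, hs, by abel⟩
  set N := Fintype.card G with hN
  have hcardle : ∀ Y : Finset G, Y.card ≤ N := fun Y => Finset.card_le_univ Y
  set valid := (Finset.univ : Finset (Finset G)).filter
    (fun Y => 2 ≤ Y.card ∧ (Y + S).card + 2 ≤ N) with hvalid
  have hXv : X ∈ valid := by
    rw [hvalid, Finset.mem_filter]
    exact ⟨Finset.mem_univ _, hX, h1⟩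
  obtain ⟨M, hM, hmin⟩ := Finset.exists_min_image valid
    (fun Y => ((Y + S).card - Y.card) * (N + 1) + Y.card) ⟨X, hXv⟩
  rw [hvalid, Finset.mem_filter] at hM
  obtain ⟨-, hM2, hM3⟩ := hM
  -- consequences of minimality
  have key : ∀ Y : Finset G, 2 ≤ Y.card → (Y + S).card + 2 ≤ N →
      (M + S).card - M.card ≤ (Y + S).card - Y.card ∧
      ((Y + S).card - Y.card = (M + S).card - M.card → M.card ≤ Y.card) := by
    intro Y hY1 hY2
    have hv : Y ∈ valid := by
      rw [hvalid, Finset.mem_filter]
      exact ⟨Finset.mem_univ _, hY1, hY2⟩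
    have h := hmin Y hv
    have hYN := hcardle Y
    have hMN := hcardle M
    constructor
    · by_contra hlt
      push Not at hlt
      have h3 : (Y + S).card - Y.card + 1 ≤ (M + S).card - M.card := hlt
      have h4 : ((Y + S).card - Y.card + 1) * (N + 1) ≤ ((M + S).card - M.card) * (N + 1) :=
        Nat.mul_le_mul_right _ h3
      have h5 : ((Y + S).card - Y.card + 1) * (N + 1)
          = ((Y + S).card - Y.card) * (N + 1) + (N + 1) := by ring
      omega
    · intro heq
      rw [heq] at h
      omega
  have hMle := hle M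
  have hκ : (M + S).card + 1 ≤ M.card + S.card := by
    have h3 := (key X hX h1).1
    have h4 := hle X
    omega
  -- duality
  have hdual : 2 * M.card + ((M + S).card - M.card) ≤ N := by
    set Y := (Finset.univ \ (M + S)).image (fun y => -y) with hY
    have hYc : Y.card = N - (M + S).card := by
      rw [hY, Finset.card_image_of_injective _ neg_injective, Finset.card_sdiff_of_subset
        (Finset.subset_univ _), Finset.card_univ]
    have hsub : Y + S ⊆ (Finset.univ \ M).image (fun y => -y) := by
      intro z hz
      obtain ⟨y, hy, s, hs, rfl⟩ := Finset.mem_add.1 hz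
      rw [hY, Finset.mem_image] at hy
      obtain ⟨w, hw, rfl⟩ := hy
      rw [Finset.mem_sdiff] at hw
      rw [Finset.mem_image]
      refine ⟨w - s, ?_, by abel⟩
      rw [Finset.mem_sdiff]
      refine ⟨Finset.mem_univ _, fun hm => hw.2 ?_⟩
      exact Finset.mem_add.2 ⟨w - s, hm, s, hs, by abel⟩
    have hYS : (Y + S).card ≤ N - M.card := by
      calc (Y + S).card ≤ ((Finset.univ \ M).image (fun y => -y)).card := Finset.card_le_card hsub
        _ = N - M.card := by
          rw [Finset.card_image_of_injective _ neg_injective, Finset.card_sdiff_of_subset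
            (Finset.subset_univ _), Finset.card_univ]
    have hMN := hcardle M
    have hMSN := hcardle (M + S)
    have hY2 : 2 ≤ Y.card := by omega
    have hY3 : (Y + S).card + 2 ≤ N := by omega
    have h3 := key Y hY2 hY3
    have h4 := hle Y
    have h5 : (Y + S).card - Y.card = (M + S).card - M.card := by
      apply le_antisymm _ h3.1
      omega
    have h6 := h3.2 h5
    omega
  refine ⟨M, hM2, hM3, hκ, ?_⟩
  intro x
  by_contra hcon
  push Not at hcon
  obtain ⟨hne, hint⟩ := hcon
  set M' := tr M x with hM'
  have hM'c : M'.card = M.card := card_tr M x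
  have hM'S : (M' + S).card = (M + S).card := by rw [hM', tr_add, card_tr]
  -- submodularity
  have hsub : ((M ∩ M') + S).card + ((M ∪ M') + S).card ≤ (M + S).card + (M' + S).card := by
    have h3 : (M ∪ M') + S = (M + S) ∪ (M' + S) := Finset.union_add
    have h4 : (M ∩ M') + S ⊆ (M + S) ∩ (M' + S) := Finset.inter_add_subset
    rw [h3, ← Finset.card_union_add_card_inter (M + S) (M' + S)]
    have h5 := Finset.card_le_card h4
    omega
  have hui : (M ∪ M').card + (M ∩ M').card = M.card + M'.card :=
    Finset.card_union_add_card_inter M M'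
  have hlt : (M ∩ M').card < M.card := by
    rcases (Finset.card_le_card (Finset.inter_subset_left (s₁ := M) (s₂ := M'))).lt_or_eq with h | h
    · exact h
    · exfalso
      have h3 : M ∩ M' = M := Finset.eq_of_subset_of_card_le Finset.inter_subset_left h.ge
      have h4 : M ⊆ M' := by rw [← h3]; exact Finset.inter_subset_right
      exact hne (Finset.eq_of_subset_of_card_le h4 hM'c.le).symm
  have hIv : ((M ∩ M') + S).card + 2 ≤ N := by
    have h3 : ((M ∩ M') + S).card ≤ (M + S).card :=
      Finset.card_le_card (Finset.add_subset_add_right Finset.inter_subset_left)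
    omega
  have hk := key (M ∩ M') hint hIv
  have hleI := hle (M ∩ M')
  have hleU := hle (M ∪ M')
  have hstrict : (M + S).card - M.card + 1 ≤ ((M ∩ M') + S).card - (M ∩ M').card := by
    rcases hk.1.lt_or_eq with h | h
    · exact h
    · have := hk.2 h.symm
      omega
  have hU : ((M ∪ M') + S).card + 2 ≤ N := by omega
  have hU2 : 2 ≤ (M ∪ M').card := by omega
  have hk2 := (key (M ∪ M') hU2 hU).1
  omega

/-- no non-trivial translate of `M` meets `M` in more than one element -/
def Sidonic (M : Finset G) : Prop := ∀ x, x ≠ 0 → (M ∩ tr M x).card ≤ 1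

omit [Fintype G] in
/-- an atomic set is Sidonic or a coset -/
lemma atomic_cases {M : Finset G} (hM : M.Nonempty) (h : Atomic M) :
    Sidonic M ∨ ∃ P : Finset G, IsSub P ∧ 2 ≤ P.card ∧ ∃ a, M = tr P a := by
  classical
  by_cases hS : Sidonic M
  · exact Or.inl hS
  · right
    unfold Sidonic at hS
    push Not at hS
    obtain ⟨x, hx, hx2⟩ := hS
    have hfix : tr M x = M := by
      rcases h x with h1 | h1
      · exact h1
      · omega
    have hxs : x ∈ stab M := by
      rw [mem_stab hM]
      intro y hy
      have : y + x ∈ tr M x := by rw [mem_tr]; simpa using hy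
      rw [hfix] at this
      rwa [add_comm]
    obtain ⟨a, ha⟩ := hM
    have hne : M.Nonempty := ⟨a, ha⟩
    refine ⟨stab M, isSub_stab hne, ?_, a, ?_⟩
    · have h2 : ({0, x} : Finset G) ⊆ stab M := by
        intro z hz
        rw [Finset.mem_insert, Finset.mem_singleton] at hz
        rcases hz with rfl | rfl
        · exact zero_mem_stab hne
        · exact hxs
      have h3 := Finset.card_le_card h2
      rw [Finset.card_pair (Ne.symm hx)] at h3
      exact h3
    · ext y
      rw [mem_tr]
      constructor
      · intro hy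
        have h3 : tr M (y - a) = M := by
          rcases h (y - a) with h4 | h4
          · exact h4
          · exfalso
            have h5 : ({y, x + y} : Finset G) ⊆ M ∩ tr M (y - a) := by
              intro z hz
              rw [Finset.mem_insert, Finset.mem_singleton] at hz
              rw [Finset.mem_inter, mem_tr]
              rcases hz with rfl | rfl
              · exact ⟨hy, by simpa using ha⟩
              · refine ⟨add_mem_of_mem_stab hxs hy, ?_⟩
                have : x + y - (y - a) = x + a := by abel
                rw [this]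
                exact add_mem_of_mem_stab hxs ha
            have h6 := Finset.card_le_card h5
            rw [Finset.card_pair (by intro h7; apply hx; simpa using h7)] at h6
            omega
        rw [mem_stab hne]
        intro z hz
        have : y - a + z ∈ tr M (y - a) := by rw [mem_tr]; simpa using hz
        rwa [h3] at this
      · intro hy
        have := add_mem_of_mem_stab hy ha
        simpa using this

omit [Fintype G] in
lemma tr_inter_tr (M : Finset G) (a b : G) : (tr M a ∩ tr M b).card = (M ∩ tr M (b - a)).card := by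
  have : tr M a ∩ tr M b = tr (M ∩ tr M (b - a)) a := by
    ext y
    simp only [Finset.mem_inter, mem_tr]
    rw [show y - a - (b - a) = y - b by abel]
  rw [this, card_tr]

omit [Fintype G] in
lemma tr_subset_add {M N : Finset G} {a : G} (ha : a ∈ N) : tr M a ⊆ N + M := by
  intro y hy
  rw [mem_tr] at hy
  exact Finset.mem_add.2 ⟨a, ha, y - a, hy, by abel⟩

omit [Fintype G] in
lemma two_translates {M N : Finset G} (hM : Sidonic M) {a b : G} (ha : a ∈ N) (hb : b ∈ N)
    (hab : a ≠ b) : 2 * M.card ≤ (N + M).card + 1 := by
  have h1 : tr M a ∪ tr M b ⊆ N + M := Finset.union_subset (tr_subset_add ha) (tr_subset_add hb)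
  have h2 := Finset.card_le_card h1
  have h3 := Finset.card_union_add_card_inter (tr M a) (tr M b)
  rw [tr_inter_tr, card_tr, card_tr] at h3
  have h4 := hM (b - a) (sub_ne_zero.2 (Ne.symm hab))
  omega

omit [Fintype G] in
lemma three_translates {M N : Finset G} (hM : Sidonic M) {a b c : G} (ha : a ∈ N) (hb : b ∈ N)
    (hc : c ∈ N) (hab : a ≠ b) (hac : a ≠ c) (hbc : b ≠ c) : 3 * M.card ≤ (N + M).card + 3 := by
  have h1 : (tr M a ∪ tr M b) ∪ tr M c ⊆ N + M :=
    Finset.union_subset (Finset.union_subset (tr_subset_add ha) (tr_subset_add hb)) (tr_subset_add hc)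
  have h2 := Finset.card_le_card h1
  have h3 := Finset.card_union_add_card_inter (tr M a) (tr M b)
  rw [tr_inter_tr, card_tr, card_tr] at h3
  have h4 := hM (b - a) (sub_ne_zero.2 (Ne.symm hab))
  have h5 := Finset.card_union_add_card_inter (tr M a ∪ tr M b) (tr M c)
  rw [card_tr, Finset.union_inter_distrib_right] at h5
  have h6 := Finset.card_union_le (tr M a ∩ tr M c) (tr M b ∩ tr M c)
  rw [tr_inter_tr, tr_inter_tr] at h6
  have h7 := hM (c - a) (sub_ne_zero.2 (Ne.symm hac))
  have h8 := hM (c - b) (sub_ne_zero.2 (Ne.symm hbc))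
  omega

omit [Fintype G] in
/-- a Sidonic set which is not contained in a coset of `Q` has a large image modulo `Q` -/
lemma sidonic_sub {M Q : Finset G} (hM : Sidonic M) (hQ : IsSub Q) (hQ2 : 2 ≤ Q.card) {m m' : G}
    (hm : m ∈ M) (hm' : m' ∈ M) (hmm : m - m' ∉ Q) : M.card + Q.card ≤ (M + Q).card := by
  classical
  rcases le_or_gt M.card Q.card with h | h
  · have h1 : tr Q m ∪ tr Q m' ⊆ M + Q := Finset.union_subset (tr_subset_add hm) (tr_subset_add hm')
    have h2 := Finset.card_le_card h1
    have h3 : Disjoint (tr Q m) (tr Q m') := by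
      rw [Finset.disjoint_left]
      intro y hy hy'
      rw [mem_tr] at hy hy'
      apply hmm
      have := hQ.sub hy' hy
      rw [show y - m' - (y - m) = m - m' by abel] at this
      exact this
    rw [Finset.card_union_of_disjoint h3, card_tr, card_tr] at h2
    omega
  · obtain ⟨q, hq, hq0⟩ : ∃ q ∈ Q, q ≠ 0 := by
      by_contra hcon
      push Not at hcon
      have : Q ⊆ {0} := fun q hq => by
        rw [Finset.mem_singleton]; exact hcon q hq
      have := Finset.card_le_card this
      simp at this
      omega
    have := two_translates hM hq hQ.zero hq0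
    rw [add_comm Q M] at this
    omega

/-- the subgroup generated by `x` as a finset -/
noncomputable def cyc (x : G) : Finset G := by
  classical
  exact Finset.univ.filter (fun y => y ∈ AddSubgroup.zmultiples x)

omit [DecidableEq G] in
lemma mem_cyc {x y : G} : y ∈ cyc x ↔ y ∈ AddSubgroup.zmultiples x := by
  classical
  unfold cyc
  simp

omit [DecidableEq G] in
lemma isSub_cyc (x : G) : IsSub (cyc x) where
  zero := mem_cyc.2 (AddSubgroup.zero_mem _)
  add := fun h1 h2 => mem_cyc.2 (AddSubgroup.add_mem _ (mem_cyc.1 h1) (mem_cyc.1 h2))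
  neg := fun h => mem_cyc.2 (AddSubgroup.neg_mem _ (mem_cyc.1 h))

omit [Fintype G] in
/-- a set closed under `y ↦ y - x` is periodic -/
lemma closed_step {T : Finset G} {x : G} (h : ∀ y ∈ T, y - x ∈ T) {y z : G} (hy : y ∈ T)
    (hz : z ∈ AddSubgroup.zmultiples x) : y + z ∈ T := by
  classical
  have hne : T.Nonempty := ⟨y, hy⟩
  have hxs : x ∈ stab T := by
    have h1 : -x ∈ stab T := by
      rw [mem_stab hne]
      intro w hw
      have := h w hw
      rwa [sub_eq_add_neg, add_comm] at this
    have := neg_mem_stab h1
    simpa using this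
  let Hs : AddSubgroup G :=
    { carrier := {g | g ∈ stab T}
      zero_mem' := zero_mem_stab hne
      add_mem' := fun ha hb => add_mem_stab ha hb
      neg_mem' := fun ha => neg_mem_stab ha }
  have h2 : AddSubgroup.zmultiples x ≤ Hs := by
    rw [AddSubgroup.zmultiples_le]
    exact hxs
  have h3 : z ∈ stab T := h2 hz
  rw [add_comm]
  exact add_mem_of_mem_stab h3 hy

/-- two translates: the progression case -/
lemma ap_case {S : Finset G} {x : G} (hx : x ≠ 0) (hS : 2 ≤ S.card)
    (hNQ : ∀ P : Finset G, IsSub P → 2 ≤ P.card → P.card < Fintype.card G →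
      S.card + P.card ≤ (S + P).card)
    (h : (S ∪ tr S x).card ≤ S.card + 1) :
    ∃ a : G, (∀ y : G, y ∈ AddSubgroup.zmultiples x) ∧
      S = (Finset.range S.card).image (fun i : ℕ => a + i • x) := by
  classical
  have hP := isSub_cyc x
  have hP2 : 2 ≤ (cyc x).card := by
    have h2 : ({0, x} : Finset G) ⊆ cyc x := by
      intro z hz
      rw [Finset.mem_insert, Finset.mem_singleton] at hz
      rcases hz with rfl | rfl
      · exact hP.zero
      · exact mem_cyc.2 (AddSubgroup.mem_zmultiples _)
    have h3 := Finset.card_le_card h2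
    rw [Finset.card_pair (Ne.symm hx)] at h3
    exact h3
  have hD : (S \ tr S x).card ≤ 1 := by
    have h1 := Finset.card_union_add_card_inter S (tr S x)
    have h2 := Finset.card_sdiff_add_card_inter S (tr S x)
    rw [card_tr] at h1
    omega
  -- a special element
  obtain ⟨y₀, hy₀, hstep⟩ : ∃ y₀ ∈ S, ∀ y ∈ S, y ≠ y₀ → y - x ∈ S := by
    rcases Finset.eq_empty_or_nonempty (S \ tr S x) with h0 | ⟨y₀, h0⟩
    · obtain ⟨y₀, hy₀⟩ : S.Nonempty := by
        rw [← Finset.card_pos]; omega
      refine ⟨y₀, hy₀, fun y hy _ => ?_⟩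
      by_contra hcon
      have : y ∈ S \ tr S x := by
        rw [Finset.mem_sdiff, mem_tr]
        exact ⟨hy, hcon⟩
      rw [h0] at this
      simp at this
    · refine ⟨y₀, (Finset.mem_sdiff.1 h0).1, fun y hy hne => ?_⟩
      by_contra hcon
      have h1 : y ∈ S \ tr S x := by
        rw [Finset.mem_sdiff, mem_tr]
        exact ⟨hy, hcon⟩
      exact hne (Finset.card_le_one.1 hD y h1 y₀ h0)
  -- the other cosets are full
  set T₁ := S.filter (fun y => y - y₀ ∉ AddSubgroup.zmultiples x) with hT₁
  have hT₁c : ∀ y ∈ T₁, y - x ∈ T₁ := by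
    intro y hy
    rw [hT₁, Finset.mem_filter] at hy ⊢
    refine ⟨hstep y hy.1 ?_, ?_⟩
    · rintro rfl
      apply hy.2
      rw [sub_self]
      exact AddSubgroup.zero_mem _
    · intro hcon
      apply hy.2
      have := AddSubgroup.add_mem _ hcon (AddSubgroup.mem_zmultiples x)
      rw [show y - x - y₀ + x = y - y₀ by abel] at this
      exact this
  have hSP : S + cyc x ⊆ T₁ ∪ tr (cyc x) y₀ := by
    intro z hz
    obtain ⟨y, hy, w, hw, rfl⟩ := Finset.mem_add.1 hz
    rw [mem_cyc] at hw
    rw [Finset.mem_union]
    by_cases hc : y - y₀ ∈ AddSubgroup.zmultiples x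
    · right
      rw [mem_tr, mem_cyc, show y + w - y₀ = y - y₀ + w by abel]
      exact AddSubgroup.add_mem _ hc hw
    · left
      exact closed_step hT₁c (by rw [hT₁, Finset.mem_filter]; exact ⟨hy, hc⟩) hw
  have hT₁lt : T₁.card < S.card := by
    apply Finset.card_lt_card
    refine ⟨Finset.filter_subset _ _, fun hsub => ?_⟩
    have := hsub hy₀
    rw [hT₁, Finset.mem_filter, sub_self] at this
    exact this.2 (AddSubgroup.zero_mem _)
  have hSPc : (S + cyc x).card ≤ T₁.card + (cyc x).card := by
    calc (S + cyc x).card ≤ (T₁ ∪ tr (cyc x) y₀).card := Finset.card_le_card hSP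
      _ ≤ T₁.card + (tr (cyc x) y₀).card := Finset.card_union_le _ _
      _ = T₁.card + (cyc x).card := by rw [card_tr]
  have hPG : (cyc x).card = Fintype.card G := by
    rcases (Finset.card_le_univ (cyc x)).lt_or_eq with h1 | h1
    · have := hNQ (cyc x) hP hP2 h1
      omega
    · exact h1
  have huniv : cyc x = Finset.univ := Finset.eq_univ_of_card _ hPG
  have hgen : ∀ y : G, y ∈ AddSubgroup.zmultiples x := fun y => mem_cyc.1 (by rw [huniv]; simp)
  refine ⟨y₀, hgen, ?_⟩
  -- multiples of `x`
  set N := Fintype.card G with hN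
  have hord : addOrderOf x = N := by
    rw [hN]
    exact addOrderOf_eq_card_of_forall_mem_zmultiples hgen |>.trans Nat.card_eq_fintype_card
  have hinj : ∀ i < N, ∀ j < N, y₀ + i • x = y₀ + j • x → i = j := by
    intro i hi j hj hij
    have h1 := add_left_cancel hij
    have h2 := nsmul_injOn_Iio_addOrderOf (x := x)
    exact h2 (by rw [Set.mem_Iio, hord]; exact hi) (by rw [Set.mem_Iio, hord]; exact hj) h1
  have hsurj : ∀ y : G, ∃ i < N, y₀ + i • x = y := by
    intro y
    have h1 : y - y₀ ∈ AddSubgroup.zmultiples x := hgen _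
    have h2 : (y - y₀) ∈ AddSubmonoid.multiples x := mem_multiples_iff_mem_zmultiples.2 h1
    obtain ⟨k, hk⟩ := h2
    refine ⟨k % N, Nat.mod_lt _ (by rw [hN]; exact Fintype.card_pos), ?_⟩
    rw [← hord, mod_addOrderOf_nsmul]
    have : k • x = y - y₀ := hk
    rw [this]; abel
  set I := (Finset.range N).filter (fun i => y₀ + i • x ∈ S) with hI
  have hdown : ∀ i ∈ I, ∀ j ≤ i, j ∈ I := by
    intro i
    induction i with
    | zero =>
      intro hi j hj
      have : j = 0 := by omega
      rw [this]; exact hi
    | succ i ih =>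
      intro hi j hj
      rcases Nat.lt_or_ge j (i + 1) with h1 | h1
      · apply ih _ j (by omega)
        rw [hI, Finset.mem_filter, Finset.mem_range] at hi ⊢
        refine ⟨by omega, ?_⟩
        have h2 := hstep _ hi.2 ?_
        · rw [succ_nsmul] at h2
          rw [show y₀ + (i • x + x) - x = y₀ + i • x by abel] at h2
          exact h2
        · intro h3
          have h4 := hinj (i + 1) hi.1 0 (by omega) (by rw [h3]; simp)
          omega
      · have : j = i + 1 := by omega
        rw [this]; exact hi
  have hIS : I.image (fun i : ℕ => y₀ + i • x) = S := by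
    ext y
    rw [Finset.mem_image]
    constructor
    · rintro ⟨i, hi, rfl⟩
      rw [hI, Finset.mem_filter] at hi
      exact hi.2
    · intro hy
      obtain ⟨i, hi, rfl⟩ := hsurj y
      refine ⟨i, ?_, rfl⟩
      rw [hI, Finset.mem_filter, Finset.mem_range]
      exact ⟨hi, hy⟩
  have hIc : I.card = S.card := by
    rw [← hIS, Finset.card_image_of_injOn]
    intro i hi j hj hij
    rw [Finset.mem_coe, hI, Finset.mem_filter, Finset.mem_range] at hi hj
    exact hinj i hi.1 j hj.1 hij
  have hIr : I = Finset.range S.card := by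
    apply Finset.eq_of_subset_of_card_le
    · intro i hi
      have h1 : Finset.range (i + 1) ⊆ I := fun j hj => hdown i hi j (by
        rw [Finset.mem_range] at hj; omega)
      have h2 := Finset.card_le_card h1
      rw [Finset.card_range] at h2
      rw [Finset.mem_range]
      omega
    · rw [Finset.card_range, hIc]
  rw [← hIr]
  exact hIS.symm

/-- the subgroup generated by a set, as a finset -/
noncomputable def gen (M : Finset G) : Finset G := by
  classical
  exact Finset.univ.filter (fun y => y ∈ AddSubgroup.closure (M : Set G))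

omit [DecidableEq G] in
lemma mem_gen {M : Finset G} {y : G} : y ∈ gen M ↔ y ∈ AddSubgroup.closure (M : Set G) := by
  classical
  unfold gen
  simp

omit [DecidableEq G] in
lemma isSub_gen (M : Finset G) : IsSub (gen M) where
  zero := mem_gen.2 (AddSubgroup.zero_mem _)
  add := fun h1 h2 => mem_gen.2 (AddSubgroup.add_mem _ (mem_gen.1 h1) (mem_gen.1 h2))
  neg := fun h => mem_gen.2 (AddSubgroup.neg_mem _ (mem_gen.1 h))

omit [DecidableEq G] in
lemma gen_subset {M H : Finset G} (hH : IsSub H) (h : M ⊆ H) : gen M ⊆ H := by
  intro y hy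
  rw [mem_gen] at hy
  let Hs : AddSubgroup G :=
    { carrier := {g | g ∈ H}
      zero_mem' := hH.zero
      add_mem' := fun ha hb => hH.add ha hb
      neg_mem' := fun ha => hH.neg ha }
  have h2 : AddSubgroup.closure (M : Set G) ≤ Hs := by
    rw [AddSubgroup.closure_le]
    intro z hz
    exact h hz
  exact h2 hy

omit [DecidableEq G] in
lemma subset_gen (M : Finset G) : M ⊆ gen M := fun _ hy =>
  mem_gen.2 (AddSubgroup.subset_closure hy)

/-- the last case: `M` lies in a proper subgroup -/
lemma sub_case {S M : Finset G} (hM0 : (0 : G) ∈ M) (hM : Sidonic M) (hM2 : 2 ≤ M.card)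
    (hPG : (gen M).card < Fintype.card G)
    (h : (M + S).card + 1 ≤ M.card + S.card) :
    ∃ P : Finset G, IsSub P ∧ 2 ≤ P.card ∧ P.card < Fintype.card G ∧
      (S + P).card < S.card + P.card := by
  classical
  set P := gen M with hP
  have hPs : IsSub P := isSub_gen M
  have hMP : M ⊆ P := subset_gen M
  have hMPc : M.card ≤ P.card := Finset.card_le_card hMP
  refine ⟨P, hPs, by omega, hPG, ?_⟩
  by_cases hall : ∀ s ∈ S, M + S.filter (fun y => y - s ∈ P) = tr P s
  · have h1 : S + P ⊆ M + S := by
      intro z hz
      obtain ⟨s, hs, p, hp, rfl⟩ := Finset.mem_add.1 hz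
      have h2 : s + p ∈ tr P s := by rw [mem_tr]; simpa using hp
      rw [← hall s hs] at h2
      exact Finset.add_subset_add_left (Finset.filter_subset _ _) h2
    have h2 := Finset.card_le_card h1
    omega
  · push Not at hall
    obtain ⟨s, hs, hne⟩ := hall
    set T := S.filter (fun y => y - s ∈ P) with hT
    set T₁ := S.filter (fun y => y - s ∉ P) with hT₁
    have hsT : s ∈ T := by
      rw [hT, Finset.mem_filter, sub_self]
      exact ⟨hs, hPs.zero⟩
    have hTne : T.Nonempty := ⟨s, hsT⟩
    have hMne : M.Nonempty := ⟨0, hM0⟩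
    have hcard : T.card + T₁.card = S.card := by
      rw [hT, hT₁]
      exact Finset.card_filter_add_card_filter_not (s := S) (fun y => y - s ∈ P)
    have hsubT : M + T ⊆ tr P s := by
      intro z hz
      obtain ⟨m, hm, t, ht, rfl⟩ := Finset.mem_add.1 hz
      rw [hT, Finset.mem_filter] at ht
      rw [mem_tr, show m + t - s = m + (t - s) by abel]
      exact hPs.add (hMP hm) ht.2
    -- Kneser in the coset
    have hk := kneser hMne hTne
    have hMT : M.card + T.card ≤ (M + T).card + 1 := by
      set Q := stab (M + T) with hQ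
      have hQs : IsSub Q := isSub_stab (hMne.add hTne)
      have h1 : T.card ≤ (T + Q).card := Finset.card_le_card (subset_add_sub hQs T)
      have h2 : M.card ≤ (M + Q).card := Finset.card_le_card (subset_add_sub hQs M)
      rcases Nat.lt_or_ge Q.card 2 with h3 | h3
      · omega
      · by_cases h4 : ∃ m ∈ M, ∃ m' ∈ M, m - m' ∉ Q
        · obtain ⟨m, hm, m', hm', hmm⟩ := h4
          have := sidonic_sub hM hQs h3 hm hm' hmm
          omega
        · exfalso
          push Not at h4
          have h5 : M ⊆ Q := by
            intro m hm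
            have := h4 m hm 0 hM0
            rwa [sub_zero] at this
          have h6 : P ⊆ Q := gen_subset hQs h5
          apply hne
          apply Finset.Subset.antisymm hsubT
          intro z hz
          rw [mem_tr] at hz
          have h7 : s ∈ M + T := Finset.mem_add.2 ⟨0, hM0, s, hsT, by simp⟩
          have h8 := add_mem_of_mem_stab (h6 hz) h7
          simpa using h8
    have hdisj : Disjoint (M + T) (M + T₁) := by
      rw [Finset.disjoint_left]
      intro z hz hz'
      have h1 := hsubT hz
      rw [mem_tr] at h1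
      obtain ⟨m, hm, t, ht, rfl⟩ := Finset.mem_add.1 hz'
      rw [hT₁, Finset.mem_filter] at ht
      apply ht.2
      have := hPs.sub h1 (hMP hm)
      rwa [show m + t - s - m = t - s by abel] at this
    have hun : (M + T) ∪ (M + T₁) ⊆ M + S :=
      Finset.union_subset (Finset.add_subset_add_left (Finset.filter_subset _ _))
        (Finset.add_subset_add_left (Finset.filter_subset _ _))
    have h1 := Finset.card_le_card hun
    rw [Finset.card_union_of_disjoint hdisj] at h1
    have h2 : T₁ ⊆ M + T₁ := fun t ht => Finset.mem_add.2 ⟨0, hM0, t, ht, by simp⟩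
    have h3 : T₁ = M + T₁ := Finset.eq_of_subset_of_card_le h2 (by omega)
    have hper : ∀ t ∈ T₁, ∀ p ∈ P, p + t ∈ T₁ := by
      intro t ht p hp
      have hT₁ne : T₁.Nonempty := ⟨t, ht⟩
      have h4 : M ⊆ stab T₁ := by
        intro m hm
        rw [mem_stab hT₁ne]
        intro w hw
        rw [h3]
        exact Finset.add_mem_add hm hw
      have h5 : P ⊆ stab T₁ := gen_subset (isSub_stab hT₁ne) h4
      exact add_mem_of_mem_stab (h5 hp) ht
    have h4 : S + P ⊆ T₁ ∪ tr P s := by
      intro z hz
      obtain ⟨t, ht, p, hp, rfl⟩ := Finset.mem_add.1 hz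
      rw [Finset.mem_union]
      by_cases hc : t - s ∈ P
      · right
        rw [mem_tr, show t + p - s = (t - s) + p by abel]
        exact hPs.add hc hp
      · left
        rw [add_comm]
        exact hper t (by rw [hT₁, Finset.mem_filter]; exact ⟨ht, hc⟩) p hp
    have h5 := Finset.card_le_card h4
    have h6 := Finset.card_union_le T₁ (tr P s)
    rw [card_tr] at h6
    have h7 : 0 < T.card := Finset.card_pos.2 hTne
    omega

/-- **Vosper's theorem in finite abelian groups**, for sets `S` with `|S + P| ≥ |S| + |P|` for all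
proper non-trivial subgroups `P`. -/
theorem vosper {S X : Finset G} (hS : 2 ≤ S.card)
    (hNQ : ∀ P : Finset G, IsSub P → 2 ≤ P.card → P.card < Fintype.card G →
      S.card + P.card ≤ (S + P).card)
    (hX : 2 ≤ X.card) (h1 : (X + S).card + 2 ≤ Fintype.card G)
    (h2 : (X + S).card + 1 ≤ X.card + S.card) :
    ∃ a x : G, (∀ y : G, y ∈ AddSubgroup.zmultiples x) ∧
      S = (Finset.range S.card).image (fun i : ℕ => a + i • x) := by
  classical
  have hSne : S.Nonempty := by rw [← Finset.card_pos]; omega
  obtain ⟨M, hM2, hMG, hMS, hat⟩ := exists_atom hSne hX h1 h2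
  have hMne : M.Nonempty := by rw [← Finset.card_pos]; omega
  have hMle : M.card ≤ (M + S).card := by
    obtain ⟨s, hs⟩ := hSne
    have := Finset.card_le_card (tr_subset_add (M := M) hs)
    rw [card_tr, add_comm S M] at this
    exact this
  rcases atomic_cases hMne hat with hMsid | ⟨P, hP, hP2, a, rfl⟩
  swap
  · exfalso
    rw [card_tr] at hMle hMS
    have h3 := hNQ P hP hP2 (by omega)
    rw [tr_add, card_tr, add_comm P S] at hMS
    omega
  rcases Nat.lt_or_ge M.card 3 with hM3 | hM3
  · -- two elements
    have hMc : M.card = 2 := by omega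
    obtain ⟨a, b, hab, rfl⟩ := Finset.card_eq_two.1 hMc
    have h3 : (S ∪ tr S (b - a)).card ≤ S.card + 1 := by
      have h4 : S ∪ tr S (b - a) = tr (tr S a ∪ tr S b) (-a) := by
        ext y
        simp only [Finset.mem_union, mem_tr]
        rw [show y - -a - a = y by abel, show y - -a - b = y - (b - a) by abel]
      have h5 : tr S a ∪ tr S b ⊆ {a, b} + S :=
        Finset.union_subset (tr_subset_add (by simp)) (tr_subset_add (by simp))
      have h6 := Finset.card_le_card h5
      rw [h4, card_tr]
      omega
    obtain ⟨c, hc⟩ := ap_case (sub_ne_zero.2 (Ne.symm hab)) hS hNQ h3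
    exact ⟨c, b - a, hc⟩
  · exfalso
    have hSM : (S + M).card + 2 ≤ Fintype.card G := by rw [add_comm S M]; exact hMG
    have hSM2 : (S + M).card + 1 ≤ S.card + M.card := by rw [add_comm S M]; omega
    obtain ⟨N, hN2, hNG, hNM, hatN⟩ := exists_atom hMne hS hSM hSM2
    have hNne : N.Nonempty := by rw [← Finset.card_pos]; omega
    rcases atomic_cases hNne hatN with hNsid | ⟨Q, hQ, hQ2, a, rfl⟩
    · obtain ⟨p, hp, q, hq, hpq⟩ := Finset.one_lt_card.1 (by omega : 1 < N.card)
      have h3 := two_translates hMsid hp hq hpq
      have h4 : 3 ≤ N.card := by omega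
      obtain ⟨p', hp', q', hq', hpq'⟩ := Finset.one_lt_card.1 (by omega : 1 < M.card)
      have h5 := two_translates hNsid hp' hq' hpq'
      rw [add_comm M N] at h5
      obtain ⟨u, hu, v, hv, w, hw, huv, huw, hvw⟩ := Finset.two_lt_card.1 (by omega : 2 < N.card)
      have h6 := three_translates hMsid hu hv hw huv huw hvw
      omega
    · rw [card_tr] at hNM hN2
      rw [tr_add, card_tr] at hNM hNG
      have hQG : Q.card < Fintype.card G := by
        obtain ⟨m, hm⟩ := hMne
        have := Finset.card_le_card (tr_subset_add (M := Q) hm)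
        rw [card_tr, add_comm M Q] at this
        omega
      have hin : ∀ m ∈ M, ∀ m' ∈ M, m - m' ∈ Q := by
        intro m hm m' hm'
        by_contra hcon
        have := sidonic_sub hMsid hQ hQ2 hm hm' hcon
        rw [add_comm M Q] at this
        omega
      obtain ⟨m₀, hm₀⟩ := hMne
      set M₀ := tr M (-m₀) with hM₀
      have h3 : M₀ ⊆ Q := by
        intro y hy
        rw [hM₀, mem_tr] at hy
        have := hin _ hy m₀ hm₀
        rwa [show y - -m₀ - m₀ = y by abel] at this
      have h4 : (gen M₀).card < Fintype.card G :=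
        lt_of_le_of_lt (Finset.card_le_card (gen_subset hQ h3)) hQG
      have h5 : Sidonic M₀ := by
        intro x hx
        have h6 := hMsid x hx
        have h7 : M₀ ∩ tr M₀ x = tr (M ∩ tr M x) (-m₀) := by
          ext y
          simp only [Finset.mem_inter, hM₀, mem_tr]
          rw [show y - x - -m₀ = y - -m₀ - x by abel]
        rw [h7, card_tr]
        exact h6
      have h6 : (0 : G) ∈ M₀ := by
        rw [hM₀, mem_tr]
        simpa using hm₀
      have h7 : M₀.card = M.card := card_tr _ _
      have h8 : (M₀ + S).card + 1 ≤ M₀.card + S.card := by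
        rw [hM₀, tr_add, card_tr, card_tr]
        exact hMS
      obtain ⟨P, hP, hP2, hPG, hlt⟩ := sub_case h6 h5 (by omega) h4 h8
      have := hNQ P hP hP2 hPG
      omega

end Pool.Agent.Helper20.Span
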