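import Mathlib
import Pool.Agent.Helper20.Span.Vosper

/-!
# Extremal sets have no quasi-periodic decomposition

`nq`: let `A` be a set with `ns A h ≠ G` of maximal cardinality, with aperiodic `ns A h`, and
`h |A| > |G|`. Then `|A + K| ≥ |A| + |K|` for all proper non-trivial subgroups `K`.
-/

set_option autoImplicit false

open scoped Pointwise

namespace Pool.Agent.Helper20.Span

open Pool.Agent.Helper82.Kneser

variable {G : Type*} [AddCommGroup G] [DecidableEq G] [Fintype G]

omit [DecidableEq G] [Fintype G] in
lemma sub_sum_mem {K : Finset G} (hK : IsSub K) {ι : Type*} (s : Finset ι) (f : ι → G)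
    (h : ∀ i ∈ s, f i ∈ K) : ∑ i ∈ s, f i ∈ K := by
  classical
  induction s using Finset.induction_on with
  | empty => simpa using hK.zero
  | insert i s hi ih =>
    rw [Finset.sum_insert hi]
    exact hK.add (h i (Finset.mem_insert_self _ _)) (ih fun j hj => h j (Finset.mem_insert_of_mem hj))

/-- slice of `A` in the coset `a + K` -/
def slice (A K : Finset G) (a : G) : Finset G := K.filter (fun u => a + u ∈ A)

omit [Fintype G] in
lemma slice_card_eq {A K : Finset G} (hK : IsSub K) {a b : G} (h : a - b ∈ K) :
    (slice A K a).card = (slice A K b).card := by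
  apply Finset.card_bij (fun u _ => u + (a - b))
  · intro u hu
    unfold slice at hu ⊢
    rw [Finset.mem_filter] at hu ⊢
    refine ⟨hK.add hu.1 h, ?_⟩
    rw [show b + (u + (a - b)) = a + u by abel]
    exact hu.2
  · intro u _ v _ huv
    exact add_right_cancel huv
  · intro v hv
    unfold slice at hv
    rw [Finset.mem_filter] at hv
    refine ⟨v - (a - b), ?_, by abel⟩
    unfold slice
    rw [Finset.mem_filter]
    refine ⟨hK.sub hv.1 h, ?_⟩
    rw [show a + (v - (a - b)) = b + v by abel]
    exact hv.2

omit [Fintype G] in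
/-- two different cosets: holes -/
lemma holes {A K : Finset G} (hK : IsSub K) {a b : G} (ha : a ∈ A) (hb : b ∈ A)
    (hab : a - b ∉ K) :
    A.card + 2 * K.card ≤ (A + K).card + (slice A K a).card + (slice A K b).card := by
  classical
  have h1 : A ⊆ A + K := subset_add_sub hK A
  set H : G → Finset G := fun c => (K.filter (fun u => c + u ∉ A)).image (fun u => c + u) with hH
  have hHc : ∀ c, (H c).card + (slice A K c).card = K.card := by
    intro c
    rw [hH]
    simp only
    rw [Finset.card_image_of_injective _ (add_right_injective c)]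
    unfold slice
    rw [add_comm]
    exact Finset.card_filter_add_card_filter_not (s := K) (fun u => c + u ∈ A)
  have hHs : ∀ c ∈ A, H c ⊆ (A + K) \ A := by
    intro c hc y hy
    rw [hH, Finset.mem_image] at hy
    obtain ⟨u, hu, rfl⟩ := hy
    rw [Finset.mem_filter] at hu
    rw [Finset.mem_sdiff]
    exact ⟨Finset.add_mem_add hc hu.1, hu.2⟩
  have hd : Disjoint (H a) (H b) := by
    rw [Finset.disjoint_left]
    intro y hy hy'
    rw [hH, Finset.mem_image] at hy hy'
    obtain ⟨u, hu, rfl⟩ := hy
    obtain ⟨v, hv, hvu⟩ := hy'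
    rw [Finset.mem_filter] at hu hv
    apply hab
    have := hK.sub hv.1 hu.1
    have h2 : v - u = a - b := by
      have : b + v = a + u := hvu
      have h3 : v = a + u - b := by rw [← this]; abel
      rw [h3]; abel
    rwa [h2] at this
  have h2 := Finset.card_le_card (Finset.union_subset (hHs a ha) (hHs b hb))
  rw [Finset.card_union_of_disjoint hd, Finset.card_sdiff_of_subset h1] at h2
  have h3 := hHc a
  have h4 := hHc b
  have h5 := Finset.card_le_card h1
  omega

/-- **No quasi-periodic decomposition.** -/
theorem nq {A : Finset G} {m : ℕ} (hm : 1 ≤ m) (hne : A.Nonempty)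
    (hA : ns A (m + 1) ≠ Finset.univ)
    (hper : (stab (ns A (m + 1))).card ≤ 1)
    (hext : ∀ B : Finset G, A.card < B.card → ns B (m + 1) = Finset.univ)
    (hdens : Fintype.card G < (m + 1) * A.card)
    (hcyc : ∀ K A₀ : Finset G, IsSub K → A₀ ⊆ K → ns A₀ (m + 1) ≠ K →
      A₀.card * Fintype.card G ≤ A.card * K.card)
    {K : Finset G} (hK : IsSub K) (hK2 : 2 ≤ K.card) (hKG : K.card < Fintype.card G) :
    A.card + K.card ≤ (A + K).card := by
  classical
  by_contra hlt
  push Not at hlt
  have hKne : K.Nonempty := ⟨0, hK.zero⟩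
  have hsub : A ⊆ A + K := subset_add_sub hK A
  -- `A` is not periodic
  have hAK : A.card < (A + K).card := by
    rcases (Finset.card_le_card hsub).lt_or_eq with h | h
    · exact h
    · exfalso
      have h1 : A = A + K := Finset.eq_of_subset_of_card_le hsub h.ge
      have h2 : K ⊆ stab (ns A (m + 1)) := by
        intro k hk
        rw [mem_stab (ns_nonempty hne _)]
        intro y hy
        rw [ns_succ] at hy ⊢
        obtain ⟨u, hu, v, hv, rfl⟩ := Finset.mem_add.1 hy
        rw [add_left_comm]
        apply Finset.add_mem_add hu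
        rw [h1, add_comm k v]
        exact Finset.add_mem_add hv hk
      have := Finset.card_le_card h2
      omega
  have hfull := hext (A + K) hAK
  obtain ⟨x, hx⟩ : ∃ x, x ∉ ns A (m + 1) := by
    by_contra hcon
    push Not at hcon
    exact hA (Finset.eq_univ_iff_forall.2 hcon)
  -- every representation of `x + K` lies in one coset with a small slice
  have hrep : ∀ b : Fin (m + 1) → G, (∀ i, b i ∈ A) → x - ∑ i, b i ∈ K →
      ∀ i j, i ≠ j → (slice A K (b i)).card + (slice A K (b j)).card ≤ K.card := by
    intro b hb hbx i j hij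
    by_contra hcon
    push Not at hcon
    set κ := x - ∑ i, b i with hκ
    have h1 : ∃ u ∈ slice A K (b i), κ - u ∈ slice A K (b j) := by
      by_contra h2
      push Not at h2
      have h3 : Disjoint (slice A K (b i)) ((slice A K (b j)).image (fun v => κ - v)) := by
        rw [Finset.disjoint_left]
        intro u hu hu'
        rw [Finset.mem_image] at hu'
        obtain ⟨v, hv, rfl⟩ := hu'
        apply h2 _ hu
        simpa using hv
      have h4 : slice A K (b i) ∪ (slice A K (b j)).image (fun v => κ - v) ⊆ K := by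
        apply Finset.union_subset (Finset.filter_subset _ _)
        intro u hu
        rw [Finset.mem_image] at hu
        obtain ⟨v, hv, rfl⟩ := hu
        exact hK.sub hbx (Finset.mem_filter.1 hv).1
      have h5 := Finset.card_le_card h4
      rw [Finset.card_union_of_disjoint h3,
        Finset.card_image_of_injective _ (sub_right_injective)] at h5
      omega
    obtain ⟨u, hu, hv⟩ := h1
    apply hx
    rw [mem_ns_iff]
    refine ⟨fun l => b l + (if l = i then u else 0) + (if l = j then κ - u else 0), ?_, ?_⟩
    · intro l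
      show b l + (if l = i then u else 0) + (if l = j then κ - u else 0) ∈ A
      by_cases hl : l = i
      · subst hl
        rw [if_pos rfl, if_neg hij, add_zero]
        exact (Finset.mem_filter.1 hu).2
      · by_cases hl' : l = j
        · subst hl'
          rw [if_neg hl, if_pos rfl, add_zero]
          exact (Finset.mem_filter.1 hv).2
        · rw [if_neg hl, if_neg hl', add_zero, add_zero]
          exact hb l
    · rw [Finset.sum_add_distrib, Finset.sum_add_distrib, Finset.sum_ite_eq' Finset.univ i,
        Finset.sum_ite_eq' Finset.univ j]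
      simp only [Finset.mem_univ, if_true]
      rw [hκ]; abel
  have hcos : ∀ b : Fin (m + 1) → G, (∀ i, b i ∈ A) → x - ∑ i, b i ∈ K →
      ∀ i j, b i - b j ∈ K := by
    intro b hb hbx i j
    by_contra hcon
    have hij : i ≠ j := by
      rintro rfl
      apply hcon
      rw [sub_self]
      exact hK.zero
    have h1 := holes hK (hb i) (hb j) hcon
    have h2 := hrep b hb hbx i j hij
    omega
  have hslice : ∀ b : Fin (m + 1) → G, (∀ i, b i ∈ A) → x - ∑ i, b i ∈ K →
      ∀ i, 2 * (slice A K (b i)).card ≤ K.card := by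
    intro b hb hbx i
    obtain ⟨j, hj⟩ : ∃ j : Fin (m + 1), j ≠ i := by
      by_cases hi : i = 0
      · exact ⟨⟨1, by omega⟩, by rw [hi]; intro h; rw [Fin.ext_iff] at h; simp at h⟩
      · exact ⟨0, Ne.symm hi⟩
    have h1 := hrep b hb hbx i j (Ne.symm hj)
    have h2 := slice_card_eq (A := A) hK (hcos b hb hbx i j)
    omega
  -- a representation
  obtain ⟨a, ha, hax⟩ : ∃ a : Fin (m + 1) → G, (∀ i, a i ∈ A) ∧ x - ∑ i, a i ∈ K := by
    have h1 : x ∈ ns (A + K) (m + 1) := by rw [hfull]; exact Finset.mem_univ _
    rw [mem_ns_iff] at h1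
    obtain ⟨f, hf, rfl⟩ := h1
    have h2 : ∀ i, ∃ a ∈ A, ∃ k ∈ K, a + k = f i := fun i => Finset.mem_add.1 (hf i)
    choose a ha k hk hak using h2
    refine ⟨a, ha, ?_⟩
    rw [← Finset.sum_sub_distrib]
    apply sub_sum_mem hK
    intro i _
    rw [← hak i]
    simpa using hk i
  set a₀ := a 0 with ha₀
  have hxa : x - (m + 1) • a₀ ∈ K := by
    have h1 : ∑ i, (a i - a₀) ∈ K := sub_sum_mem hK _ _ (fun i _ => hcos a ha hax i 0)
    have h2 := hK.add hax h1
    rw [Finset.sum_sub_distrib, Finset.sum_const, Finset.card_univ, Fintype.card_fin] at h2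
    rwa [show x - ∑ i, a i + (∑ i, a i - (m + 1) • a₀) = x - (m + 1) • a₀ by abel] at h2
  have huniq : ∀ b : Fin (m + 1) → G, (∀ i, b i ∈ A) → x - ∑ i, b i ∈ K →
      ∀ i, b i - a₀ ∈ K := by
    intro b hb hbx i
    by_contra hcon
    have h1 := holes hK (hb i) (ha 0) hcon
    have h2 := hslice b hb hbx i
    have h3 := hslice a ha hax 0
    rw [← ha₀] at h1 h3
    omega
  -- translate
  set A₁ := tr A (-a₀) with hA₁
  have hA₁c : A₁.card = A.card := card_tr _ _
  have h0A₁ : (0 : G) ∈ A₁ := by
    rw [hA₁, mem_tr]
    simpa using ha 0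
  set B₁ := A₁.filter (fun y => y ∉ K) with hB₁
  set A₀ := A₁.filter (fun y => y ∈ K) with hA₀
  have hcard : A₀.card + B₁.card = A.card := by
    rw [hA₀, hB₁, ← hA₁c]
    exact Finset.card_filter_add_card_filter_not (s := A₁) (fun y => y ∈ K)
  have hA₀K : A₀ ⊆ K := fun y hy => (Finset.mem_filter.1 hy).2
  have hA₀ne : ns A₀ (m + 1) ≠ K := by
    intro hcon
    have h1 : x - (m + 1) • a₀ ∈ ns A₀ (m + 1) := by rw [hcon]; exact hxa
    rw [mem_ns_iff] at h1
    obtain ⟨f, hf, hfx⟩ := h1
    apply hx
    rw [mem_ns_iff]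
    refine ⟨fun i => f i + a₀, ?_, ?_⟩
    · intro i
      have := (Finset.mem_filter.1 (hf i)).1
      rw [hA₁, mem_tr] at this
      rwa [show f i - -a₀ = f i + a₀ by abel] at this
    · rw [Finset.sum_add_distrib, hfx, Finset.sum_const, Finset.card_univ, Fintype.card_fin]
      abel
  have hA₀c := hcyc K A₀ hK hA₀K hA₀ne
  have hKpos : 0 < K.card := by omega
  -- the bound for `B₁`
  have hB₁c : (m + 1) * B₁.card + K.card ≤ Fintype.card G := by
    rcases Finset.eq_empty_or_nonempty B₁ with h0 | hBne
    · rw [h0, Finset.card_empty]; omega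
    set X := B₁ + K with hX
    set Y := A₁ + K with hY
    have hXne : X.Nonempty := hBne.add hKne
    have h0Y : (0 : G) ∈ Y := Finset.mem_add.2 ⟨0, h0A₁, 0, hK.zero, by simp⟩
    have hYne : Y.Nonempty := ⟨0, h0Y⟩
    have hWne : (X + ns Y m).Nonempty := hXne.add (ns_nonempty hYne m)
    have hk := kneser_iter hXne hYne m
    set W := X + ns Y m with hW
    set S := stab W with hS
    have hSs : IsSub S := isSub_stab hWne
    have h0W : (0 : G) ∉ W := by
      intro hcon
      obtain ⟨u, hu, v, hv, huv⟩ := Finset.mem_add.1 hcon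
      obtain ⟨b₁, hb₁, k, hk1, rfl⟩ := Finset.mem_add.1 hu
      rw [mem_ns_iff] at hv
      obtain ⟨f, hf, rfl⟩ := hv
      have h2 : ∀ i, ∃ a ∈ A₁, ∃ k ∈ K, a + k = f i := fun i => Finset.mem_add.1 (hf i)
      choose c hc l hl hcl using h2
      rw [hB₁, Finset.mem_filter, hA₁, mem_tr] at hb₁
      have hb₂ : b₁ + a₀ ∈ A := by
        have := hb₁.1
        rwa [show b₁ - -a₀ = b₁ + a₀ by abel] at this
      have hc₂ : ∀ i, c i + a₀ ∈ A := by
        intro i
        have := hc i
        rw [hA₁, mem_tr] at this
        rwa [show c i - -a₀ = c i + a₀ by abel] at this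
      have h3 := huniq (Fin.cons (b₁ + a₀) (fun i => c i + a₀)) (by
        intro i
        refine Fin.cases ?_ ?_ i
        · simpa using hb₂
        · intro i; simpa using hc₂ i) (by
        rw [Fin.sum_univ_succ]
        simp only [Fin.cons_zero, Fin.cons_succ]
        rw [Finset.sum_add_distrib, Finset.sum_const, Finset.card_univ, Fintype.card_fin]
        have h4 : ∑ i, f i = ∑ i, c i + ∑ i, l i := by
          rw [← Finset.sum_add_distrib]
          exact Finset.sum_congr rfl fun i _ => (hcl i).symm
        have h5 : ∑ i, l i ∈ K := sub_sum_mem hK _ _ (fun i _ => hl i)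
        have h6 : ∑ i, c i = - (b₁ + k) - ∑ i, l i := by
          rw [h4] at huv
          have : ∑ i, c i = (b₁ + k + (∑ i, c i + ∑ i, l i)) - (b₁ + k) - ∑ i, l i := by abel
          rw [this, huv]; abel
        rw [h6, show x - (b₁ + a₀ + (-(b₁ + k) - ∑ i, l i + m • a₀))
          = (x - (m + 1) • a₀) + (k + ∑ i, l i) by rw [succ_nsmul]; abel]
        exact hK.add hxa (hK.add hk1 h5)) 0
      simp only [Fin.cons_zero] at h3
      apply hb₁.2
      rwa [show b₁ + a₀ - a₀ = b₁ by abel] at h3
    have hSW : Disjoint S W := by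
      rw [Finset.disjoint_left]
      intro s hs hsW
      apply h0W
      have := add_mem_of_mem_stab (neg_mem_stab hs) hsW
      simpa using this
    have hXW : X + S ⊆ W := by
      intro z hz
      obtain ⟨u, hu, s, hs, rfl⟩ := Finset.mem_add.1 hz
      rw [add_comm]
      apply add_mem_of_mem_stab hs
      have h0 : (0 : G) ∈ ns Y m := by
        rw [mem_ns_iff]
        exact ⟨fun _ => 0, fun _ => h0Y, by simp⟩
      exact Finset.mem_add.2 ⟨u, hu, 0, h0, by simp⟩
    have hYS : (X + S) ∪ S ⊆ Y + S := by
      apply Finset.union_subset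
      · apply Finset.add_subset_add_right
        rw [hX, hY]
        exact Finset.add_subset_add_right (Finset.filter_subset _ _)
      · intro s hs
        exact Finset.mem_add.2 ⟨0, h0Y, s, hs, by simp⟩
    have hdis : Disjoint (X + S) S := (hSW.mono_right hXW).symm
    have h1 := Finset.card_le_card hYS
    rw [Finset.card_union_of_disjoint hdis] at h1
    have h2 : W.card + S.card ≤ Fintype.card G := by
      rw [← Finset.card_union_of_disjoint hSW.symm]
      exact Finset.card_le_univ _
    have hKS : K ⊆ S := by
      intro k hk1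
      rw [hS, mem_stab hWne]
      intro w hw
      obtain ⟨u, hu, v, hv, rfl⟩ := Finset.mem_add.1 hw
      obtain ⟨b, hb, k', hk', rfl⟩ := Finset.mem_add.1 hu
      rw [show k + (b + k' + v) = (b + (k + k')) + v by abel]
      exact Finset.add_mem_add (Finset.add_mem_add hb (hK.add hk1 hk')) hv
    have h3 := Finset.card_le_card hKS
    have h4 : B₁.card ≤ (X + S).card := by
      apply Finset.card_le_card
      intro b hb
      exact Finset.mem_add.2 ⟨b, Finset.mem_add.2 ⟨b, hb, 0, hK.zero, by simp⟩, 0, hSs.zero, by simp⟩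
    have h5 : m * ((X + S).card + S.card) ≤ m * (Y + S).card := Nat.mul_le_mul_left _ h1
    have h6 : (m + 1) * B₁.card ≤ (m + 1) * (X + S).card := Nat.mul_le_mul_left _ h4
    have e1 : m * ((X + S).card + S.card) = m * (X + S).card + m * S.card := by ring
    have e2 : (m + 1) * (X + S).card = m * (X + S).card + (X + S).card := by ring
    omega
  -- final computation
  have h1 : (m + 1) * A.card * Fintype.card G + K.card * Fintype.card G
      ≤ Fintype.card G * Fintype.card G + (m + 1) * (A.card * K.card) := by
    have h2 : ((m + 1) * B₁.card + K.card) * Fintype.card G ≤ Fintype.card G * Fintype.card G :=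
      Nat.mul_le_mul_right _ hB₁c
    have h3 : (m + 1) * (A₀.card * Fintype.card G) ≤ (m + 1) * (A.card * K.card) :=
      Nat.mul_le_mul_left _ hA₀c
    calc (m + 1) * A.card * Fintype.card G + K.card * Fintype.card G
        = ((m + 1) * B₁.card + K.card) * Fintype.card G
          + (m + 1) * (A₀.card * Fintype.card G) := by rw [← hcard]; ring
      _ ≤ _ := add_le_add h2 h3
  obtain ⟨t, ht⟩ : ∃ t, Fintype.card G = K.card + t := ⟨Fintype.card G - K.card, by omega⟩
  have htpos : 0 < t := by omega
  rw [ht] at h1 hdens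
  have h4 : ((m + 1) * A.card) * t ≤ (K.card + t) * t := by nlinarith
  have h5 := Nat.le_of_mul_le_mul_right h4 htpos
  omega

end Pool.Agent.Helper20.Span
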