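import Mathlib
import Pool.Agent.Helper20.Span.NQ

/-!
# The aperiodic case: extremal sets are arithmetic progressions
-/

set_option autoImplicit false

open scoped Pointwise

namespace Pool.Agent.Helper20.Span

open Pool.Agent.Helper82.Kneser

section general

variable {G : Type*} [AddCommGroup G] [DecidableEq G]

/-- if `ns A k` is aperiodic then so are the smaller sumsets -/
lemma stab_ns_mono {A : Finset G} (hA : A.Nonempty) {j k : ℕ} (hjk : j ≤ k) :
    stab (ns A j) ⊆ stab (ns A k) := by
  intro g hg
  rw [mem_stab (ns_nonempty hA k)]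
  intro x hx
  obtain ⟨i, rfl⟩ := Nat.exists_eq_add_of_le hjk
  rw [ns_add] at hx ⊢
  obtain ⟨u, hu, v, hv, rfl⟩ := Finset.mem_add.1 hx
  rw [← add_assoc]
  exact Finset.add_mem_add (add_mem_of_mem_stab hg hu) hv

lemma ns_step {A : Finset G} (hA : A.Nonempty) {k : ℕ} (hper : (stab (ns A k)).card ≤ 1) {j : ℕ}
    (hj : j + 1 ≤ k) : (ns A j).card + A.card ≤ (ns A (j + 1)).card + 1 := by
  have h1 := kneser_weak (ns_nonempty hA j) hA
  rw [← ns_succ] at h1
  have h2 := Finset.card_le_card (stab_ns_mono hA hj)
  omega

end general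

section cyc

variable {G : Type*} [AddCommGroup G] [DecidableEq G] [Fintype G]

/-- extremal aperiodic sets of density larger than `1/h` are arithmetic progressions -/
theorem aperiodic_case [IsAddCyclic G] {A : Finset G} {m : ℕ} (hm : 2 ≤ m) (hne : A.Nonempty)
    (hA : ns A (m + 1) ≠ Finset.univ)
    (hper : (stab (ns A (m + 1))).card ≤ 1)
    (hext : ∀ B : Finset G, A.card < B.card → ns B (m + 1) = Finset.univ)
    (hdens : Fintype.card G < (m + 1) * A.card)
    (hcyc : ∀ K A₀ : Finset G, IsSub K → A₀ ⊆ K → ns A₀ (m + 1) ≠ K →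
      A₀.card * Fintype.card G ≤ A.card * K.card) :
    ∃ a x : G, (∀ y : G, y ∈ AddSubgroup.zmultiples x) ∧
      A = (Finset.range A.card).image (fun i : ℕ => a + i • x) := by
  classical
  have hlt : (ns A (m + 1)).card < Fintype.card G := by
    rcases (Finset.card_le_univ (ns A (m + 1))).lt_or_eq with h | h
    · exact h
    · exact absurd (Finset.eq_univ_of_card _ h) hA
  rcases Nat.lt_or_ge A.card 2 with hA1 | hA2
  · have hA1' : A.card = 1 := by
      have := Finset.card_pos.2 hne
      omega
    obtain ⟨a, rfl⟩ := Finset.card_eq_one.1 hA1'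
    obtain ⟨x, hx⟩ := IsAddCyclic.exists_generator (α := G)
    refine ⟨a, x, hx, ?_⟩
    ext y
    simp
  · -- a small step
    obtain ⟨j, hj1, hjm, hj⟩ : ∃ j, 1 ≤ j ∧ j + 1 ≤ m ∧
        (ns A (j + 1)).card + 1 ≤ (ns A j).card + A.card := by
      by_contra hcon
      push Not at hcon
      have h1 : ∀ j, 1 ≤ j → j ≤ m → j * A.card ≤ (ns A j).card := by
        intro j hj1
        induction j, hj1 using Nat.le_induction with
        | base => intro _; rw [ns_one]; omega
        | succ j hj1 ih =>
          intro hjm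
          have h2 := ih (by omega)
          have h3 := hcon j hj1 hjm
          have : (j + 1) * A.card = j * A.card + A.card := by ring
          omega
      have h2 := h1 m (by omega) le_rfl
      have h3 := ns_step hne hper (le_refl (m + 1))
      have : (m + 1) * A.card = m * A.card + A.card := by ring
      omega
    have hmono : ∀ i, i ≤ m → (ns A i).card ≤ (ns A m).card := by
      intro i hi
      obtain ⟨k, hk⟩ := Nat.exists_eq_add_of_le hi
      rw [hk, ns_add]
      obtain ⟨b, hb⟩ := ns_nonempty hne k
      have := Finset.card_le_card (tr_subset_add (M := ns A i) hb)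
      rw [card_tr, add_comm (ns A k)] at this
      exact this
    have h1 := ns_step hne hper (le_refl (m + 1))
    have h2 := hmono (j + 1) hjm
    have hj' : A.card ≤ (ns A j).card := by
      obtain ⟨k, hk⟩ := Nat.exists_eq_add_of_le hj1
      rw [hk, ns_add, ns_one]
      obtain ⟨b, hb⟩ := ns_nonempty hne k
      have := Finset.card_le_card (tr_subset_add (M := A) hb)
      rw [card_tr, add_comm (ns A k)] at this
      exact this
    rw [ns_succ] at h2 hj
    exact vosper hA2 (fun P hP hP2 hPG => nq (by omega) hne hA hper hext hdens hcyc hP hP2 hPG)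
      (by omega : 2 ≤ (ns A j).card) (by omega) hj

end cyc

section hom

variable {G H : Type*} [AddCommGroup G] [AddCommGroup H] [DecidableEq G] [DecidableEq H]
  [Fintype G] [Fintype H]

/-- preimage under a homomorphism -/
def pre (f : G →+ H) (B : Finset H) : Finset G := Finset.univ.filter (fun x => f x ∈ B)

omit [DecidableEq G] [Fintype H] in
lemma mem_pre {f : G →+ H} {B : Finset H} {x : G} : x ∈ pre f B ↔ f x ∈ B := by
  unfold pre
  simp

omit [DecidableEq G] in
lemma card_pre {f : G →+ H} (hf : Function.Surjective f) (B : Finset H) :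
    (pre f B).card * Fintype.card H = B.card * Fintype.card G := by
  classical
  have hfib : ∀ y : H, (Finset.univ.filter (fun x => f x = y)).card
      = (Finset.univ.filter (fun x => f x = 0)).card := by
    intro y
    exact AddMonoidHom.card_fiber_eq_of_mem_range f (hf y) (hf 0)
  set c := (Finset.univ.filter (fun x : G => f x = 0)).card with hc
  have h1 : ∀ C : Finset H, (pre f C).card = C.card * c := by
    intro C
    rw [Finset.card_eq_sum_card_fiberwise (f := f) (t := C)
      (fun x hx => mem_pre.1 (Finset.mem_coe.1 hx))]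
    rw [← smul_eq_mul, ← Finset.sum_const]
    apply Finset.sum_congr rfl
    intro y hy
    rw [← hfib y]
    congr 1
    ext x
    rw [Finset.mem_filter, Finset.mem_filter, mem_pre]
    constructor
    · rintro ⟨_, h⟩; exact ⟨Finset.mem_univ _, h⟩
    · rintro ⟨_, h⟩; exact ⟨by rw [h]; exact hy, h⟩
  have h2 := h1 Finset.univ
  have h3 : pre f (Finset.univ : Finset H) = Finset.univ := by
    ext x; simp [mem_pre]
  rw [h3, Finset.card_univ, Finset.card_univ] at h2
  rw [h1, h2]
  ring

omit [Fintype G] [Fintype H] in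
lemma image_ns (f : G →+ H) (A : Finset G) (j : ℕ) : (ns A j).image f = ns (A.image f) j := by
  induction j with
  | zero => simp [ns_zero]
  | succ j ih => rw [ns_succ, ns_succ, Finset.image_add, ih]

omit [DecidableEq G] [Fintype H] in
lemma image_pre {f : G →+ H} (hf : Function.Surjective f) (B : Finset H) :
    (pre f B).image f = B := by
  ext y
  rw [Finset.mem_image]
  constructor
  · rintro ⟨x, hx, rfl⟩
    exact mem_pre.1 hx
  · intro hy
    obtain ⟨x, rfl⟩ := hf y
    exact ⟨x, mem_pre.2 hy, rfl⟩

lemma ns_pre_univ {f : G →+ H} (hf : Function.Surjective f) {B : Finset H} {j : ℕ}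
    (h : ns (pre f B) j = Finset.univ) : ns B j = Finset.univ := by
  have h1 := image_ns f (pre f B) j
  rw [h, image_pre hf] at h1
  rw [← h1]
  exact Finset.image_univ_of_surjective hf

end hom

/-- extremality in a cyclic group passes to subgroups -/
lemma cyc_ext (d : ℕ) [NeZero d] {k h : ℕ}
    (hext : ∀ B : Finset (ZMod d), k < B.card → ns B h = Finset.univ)
    (K A₀ : Finset (ZMod d)) (hK : IsSub K) (hA : A₀ ⊆ K) (hne : ns A₀ h ≠ K) :
    A₀.card * Fintype.card (ZMod d) ≤ k * K.card := by
  classical
  let Ks : AddSubgroup (ZMod d) :=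
    { carrier := {g | g ∈ K}
      zero_mem' := hK.zero
      add_mem' := fun ha hb => hK.add ha hb
      neg_mem' := fun ha => hK.neg ha }
  have hKc : Nat.card Ks = K.card := by
    have : Nat.card Ks = Nat.card (K : Set (ZMod d)) := rfl
    rw [this]
    simp
  have hdvd : K.card ∣ d := by
    have := Ks.card_addSubgroup_dvd_card
    rw [hKc, Nat.card_zmod] at this
    exact this
  obtain ⟨e, he⟩ := hdvd
  have he' : K.card * e = d := he.symm
  have hdpos : 0 < d := NeZero.pos d
  have hKpos : 0 < K.card := Finset.card_pos.2 ⟨0, hK.zero⟩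
  have hepos : 0 < e := by
    rcases Nat.eq_zero_or_pos e with h0 | h0
    · rw [h0, mul_zero] at he; omega
    · exact h0
  -- elements of `K` are multiples of `e`
  have hrange : ∀ y ∈ K, ∃ z : ZMod d, e • z = y := by
    intro y hy
    have h1 : K.card • y = 0 := by
      have h2 : Nat.card Ks • (⟨y, hy⟩ : Ks) = 0 := card_nsmul_eq_zero'
      have h3 := congrArg (Subtype.val) h2
      rw [hKc] at h3
      simpa using h3
    have h4 : ((K.card * y.val : ℕ) : ZMod d) = 0 := by
      rw [Nat.cast_mul, ZMod.natCast_val, ZMod.cast_id, ← nsmul_eq_mul]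
      exact h1
    rw [ZMod.natCast_eq_zero_iff] at h4
    have h5 : e ∣ y.val := by
      have h6 : K.card * e ∣ K.card * y.val := by
        rw [he']
        exact h4
      exact Nat.dvd_of_mul_dvd_mul_left hKpos h6
    obtain ⟨t, ht⟩ := h5
    refine ⟨(t : ZMod d), ?_⟩
    rw [nsmul_eq_mul, ← Nat.cast_mul, ← ht, ZMod.natCast_val, ZMod.cast_id]
  let μ : ZMod d →+ ZMod d := nsmulAddMonoidHom e
  have hμ : ∀ z, μ z = e • z := fun z => rfl
  -- the kernel of `μ`
  set c := (Finset.univ.filter (fun x : ZMod d => μ x = 0)).card with hc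
  have hce : e ≤ c := by
    have h1 : (Finset.range e).image (fun i : ℕ => ((K.card * i : ℕ) : ZMod d))
        ⊆ Finset.univ.filter (fun x : ZMod d => μ x = 0) := by
      intro x hx
      rw [Finset.mem_image] at hx
      obtain ⟨i, _, rfl⟩ := hx
      rw [Finset.mem_filter]
      refine ⟨Finset.mem_univ _, ?_⟩
      rw [hμ, nsmul_eq_mul, ← Nat.cast_mul, ZMod.natCast_eq_zero_iff]
      exact ⟨i, by
        have h3 : e * (K.card * i) = (K.card * e) * i := by ring
        rw [h3, he']⟩
    have h2 := Finset.card_le_card h1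
    rw [Finset.card_image_of_injOn, Finset.card_range] at h2
    · exact h2
    · intro i hi j hj hij
      rw [Finset.mem_coe, Finset.mem_range] at hi hj
      simp only at hij
      rw [ZMod.natCast_eq_natCast_iff'] at hij
      have hi' : K.card * i < d :=
        lt_of_lt_of_eq (Nat.mul_lt_mul_of_pos_left hi hKpos) he'
      have hj' : K.card * j < d :=
        lt_of_lt_of_eq (Nat.mul_lt_mul_of_pos_left hj hKpos) he'
      rw [Nat.mod_eq_of_lt hi', Nat.mod_eq_of_lt hj'] at hij
      exact Nat.eq_of_mul_eq_mul_left hKpos hij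
  set P : Finset (ZMod d) := Finset.univ.filter (fun x => μ x ∈ A₀) with hP
  have hPc : P.card = A₀.card * c := by
    rw [Finset.card_eq_sum_card_fiberwise (s := P) (f := μ) (t := A₀)
      (fun x hx => (Finset.mem_filter.1 (Finset.mem_coe.1 hx)).2)]
    rw [← smul_eq_mul, ← Finset.sum_const]
    apply Finset.sum_congr rfl
    intro y hy
    obtain ⟨z, hz⟩ := hrange y (hA hy)
    rw [hc, ← AddMonoidHom.card_fiber_eq_of_mem_range μ ⟨z, hz⟩ ⟨0, map_zero μ⟩]
    congr 1
    ext x
    rw [Finset.mem_filter, Finset.mem_filter, Finset.mem_filter]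
    constructor
    · rintro ⟨_, h⟩; exact ⟨Finset.mem_univ _, h⟩
    · rintro ⟨_, h⟩; exact ⟨⟨Finset.mem_univ _, by rw [h]; exact hy⟩, h⟩
  have hPle : P.card ≤ k := by
    by_contra hcon
    push Not at hcon
    have h1 := hext P hcon
    apply hne
    apply Finset.Subset.antisymm
    · intro y hy
      rw [mem_ns_iff] at hy
      obtain ⟨f, hf, rfl⟩ := hy
      exact sub_sum_mem hK _ _ (fun i _ => hA (hf i))
    · intro y hy
      obtain ⟨z, rfl⟩ := hrange y hy
      have h2 : z ∈ ns P h := by rw [h1]; exact Finset.mem_univ _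
      rw [mem_ns_iff] at h2 ⊢
      obtain ⟨f, hf, rfl⟩ := h2
      refine ⟨fun i => μ (f i), fun i => (Finset.mem_filter.1 (hf i)).2, ?_⟩
      rw [← map_sum, hμ]
  rw [ZMod.card]
  calc A₀.card * d = A₀.card * e * K.card := by
        have h3 : A₀.card * e * K.card = A₀.card * (K.card * e) := by ring
        rw [h3, he']
    _ ≤ A₀.card * c * K.card := Nat.mul_le_mul_right _ (Nat.mul_le_mul_left _ hce)
    _ ≤ k * K.card := Nat.mul_le_mul_right _ (by rw [← hPc]; exact hPle)

end Pool.Agent.Helper20.Span
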