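import Mathlib
import Pool.Agent.Helper20.Span.Cyclic

/-!
# Reduction to the aperiodic case in `ZMod n`
-/

set_option autoImplicit false

open scoped Pointwise

namespace Pool.Agent.Helper20.Span

open Pool.Agent.Helper82.Kneser

/-- the quantity `v₁(n,h)` (the divisor `1` contributes `0`) -/
def v1 (n h : ℕ) : ℕ := n.divisors.sup (fun d => if d = 1 then 0 else ((d - 2) / h + 1) * (n / d))

lemma le_v1 {n h d : ℕ} (hn : n ≠ 0) (hd : d ∣ n) (hd1 : d ≠ 1) :
    ((d - 2) / h + 1) * (n / d) ≤ v1 n h := by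
  have h1 := Finset.le_sup (f := fun d => if d = 1 then 0 else ((d - 2) / h + 1) * (n / d))
    (Nat.mem_divisors.2 ⟨hd, hn⟩)
  simp only [if_neg hd1] at h1
  exact h1

/-- a subgroup of `ZMod n` is the kernel of a reduction map -/
lemma sub_eq_ker (n : ℕ) [NeZero n] {K : Finset (ZMod n)} (hK : IsSub K) :
    ∃ (d : ℕ) (hd : d ∣ n), K.card * d = n ∧
      ∀ x : ZMod n, x ∈ K ↔ ZMod.castHom hd (ZMod d) x = 0 := by
  classical
  let Ks : AddSubgroup (ZMod n) :=
    { carrier := {g | g ∈ K}
      zero_mem' := hK.zero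
      add_mem' := fun ha hb => hK.add ha hb
      neg_mem' := fun ha => hK.neg ha }
  have hKc : Nat.card Ks = K.card := by
    have : Nat.card Ks = Nat.card (K : Set (ZMod n)) := rfl
    rw [this]
    simp
  have hdvd : K.card ∣ n := by
    have := Ks.card_addSubgroup_dvd_card
    rw [hKc, Nat.card_zmod] at this
    exact this
  obtain ⟨d, he⟩ := hdvd
  have he' : K.card * d = n := he.symm
  have hdn : d ∣ n := Dvd.intro_left K.card he'
  have hnpos : 0 < n := NeZero.pos n
  have hKpos : 0 < K.card := Finset.card_pos.2 ⟨0, hK.zero⟩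
  have hdpos : 0 < d := Nat.pos_of_dvd_of_pos hdn hnpos
  have : NeZero d := ⟨hdpos.ne'⟩
  refine ⟨d, hdn, he', ?_⟩
  set f : ZMod n →+ ZMod d := (ZMod.castHom hdn (ZMod d)).toAddMonoidHom with hf
  have hfs : Function.Surjective f := ZMod.castHom_surjective hdn
  have hfx : ∀ x, f x = ZMod.castHom hdn (ZMod d) x := fun x => rfl
  have hsub : K ⊆ pre f {0} := by
    intro y hy
    rw [mem_pre, Finset.mem_singleton, hfx, ZMod.castHom_apply]
    have h1 : K.card • y = 0 := by
      have h2 : Nat.card Ks • (⟨y, hy⟩ : Ks) = 0 := card_nsmul_eq_zero'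
      have h3 := congrArg (Subtype.val) h2
      rw [hKc] at h3
      simpa using h3
    have h4 : ((K.card * y.val : ℕ) : ZMod n) = 0 := by
      rw [Nat.cast_mul, ZMod.natCast_val, ZMod.cast_id, ← nsmul_eq_mul]
      exact h1
    rw [ZMod.natCast_eq_zero_iff] at h4
    have h5 : d ∣ y.val := by
      have h6 : K.card * d ∣ K.card * y.val := by
        rw [he']
        exact h4
      exact Nat.dvd_of_mul_dvd_mul_left hKpos h6
    rw [ZMod.cast_eq_val, ZMod.natCast_eq_zero_iff]
    exact h5
  have hcard : (pre f {0}).card = K.card := by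
    have h1 := card_pre hfs {0}
    rw [Finset.card_singleton, one_mul, ZMod.card, ZMod.card] at h1
    have h2 : (pre f {0}).card * d = K.card * d := by rw [he']; exact h1
    exact Nat.eq_of_mul_eq_mul_right hdpos h2
  have heq : K = pre f {0} := Finset.eq_of_subset_of_card_le hsub hcard.le
  intro x
  constructor
  · intro hx
    have := hsub hx
    rwa [mem_pre, Finset.mem_singleton] at this
  · intro hx
    rw [heq, mem_pre, Finset.mem_singleton]
    exact hx

/-- the data attached to a set `A` with `ns A (m+1) ≠ ZMod n` -/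
lemma main_data (n : ℕ) [NeZero n] {m : ℕ} {A : Finset (ZMod n)} (hne : A.Nonempty)
    (hA : ns A (m + 1) ≠ Finset.univ) :
    ∃ (d : ℕ) (hd : d ∣ n), 2 ≤ d ∧ (stab (ns A (m + 1))).card * d = n ∧
      (∀ x : ZMod n, x ∈ stab (ns A (m + 1)) ↔ ZMod.castHom hd (ZMod d) x = 0) ∧
      (A + stab (ns A (m + 1)) = pre (ZMod.castHom hd (ZMod d)).toAddMonoidHom
        (A.image (ZMod.castHom hd (ZMod d)).toAddMonoidHom)) ∧
      (A + stab (ns A (m + 1))).card
        = (A.image (ZMod.castHom hd (ZMod d)).toAddMonoidHom).card * (n / d) ∧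
      (A.image (ZMod.castHom hd (ZMod d)).toAddMonoidHom).card ≤ (d - 2) / (m + 1) + 1 := by
  classical
  set W := ns A (m + 1) with hW
  have hWne : W.Nonempty := ns_nonempty hne _
  set K := stab W with hK
  have hKs : IsSub K := isSub_stab hWne
  obtain ⟨d, hdn, hKd, hker⟩ := sub_eq_ker n hKs
  have hnpos : 0 < n := NeZero.pos n
  have hdpos : 0 < d := Nat.pos_of_dvd_of_pos hdn hnpos
  have : NeZero d := ⟨hdpos.ne'⟩
  have hKpos : 0 < K.card := Finset.card_pos.2 ⟨0, hKs.zero⟩
  set f : ZMod n →+ ZMod d := (ZMod.castHom hdn (ZMod d)).toAddMonoidHom with hf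
  have hfs : Function.Surjective f := ZMod.castHom_surjective hdn
  have hfk : ∀ x, x ∈ K ↔ f x = 0 := hker
  obtain ⟨y, hy⟩ : ∃ y, y ∉ W := by
    by_contra hcon
    push Not at hcon
    exact hA (Finset.eq_univ_iff_forall.2 hcon)
  have hWK : W.card + K.card ≤ n := by
    have h1 : Disjoint W (tr K y) := by
      rw [Finset.disjoint_left]
      intro z hz hz'
      rw [mem_tr] at hz'
      apply hy
      have := add_mem_of_mem_stab (neg_mem_stab hz') hz
      rwa [show -(z - y) + z = y by abel] at this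
    have h2 := Finset.card_le_univ (W ∪ tr K y)
    rw [Finset.card_union_of_disjoint h1, card_tr, ZMod.card] at h2
    exact h2
  have hpre : A + K = pre f (A.image f) := by
    ext x
    rw [mem_pre, Finset.mem_image, Finset.mem_add]
    constructor
    · rintro ⟨a, ha, k, hk, rfl⟩
      exact ⟨a, ha, by rw [map_add, (hfk k).1 hk, add_zero]⟩
    · rintro ⟨a, ha, hax⟩
      refine ⟨a, ha, x - a, ?_, by abel⟩
      rw [hfk, map_sub, hax, sub_self]
  have hnd : n / d = K.card := by
    have h1 : K.card * d / d = K.card := Nat.mul_div_cancel _ hdpos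
    rwa [hKd] at h1
  have hcard : (A + K).card = (A.image f).card * (n / d) := by
    have h1 := card_pre hfs (A.image f)
    rw [← hpre, ZMod.card, ZMod.card] at h1
    have h2 : (A + K).card * d = ((A.image f).card * K.card) * d := by
      rw [h1, mul_assoc, hKd]
    rw [hnd]
    exact Nat.eq_of_mul_eq_mul_right hdpos h2
  have hd2 : 2 ≤ d := by
    by_contra hcon
    have hd1 : d = 1 := by omega
    rw [hd1, mul_one] at hKd
    have := Finset.card_pos.2 hWne
    omega
  -- Kneser
  have hk := kneser_iter hne hne m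
  have hAm : A + ns A m = W := by
    rw [hW, add_comm m 1, ns_add, ns_one]
  rw [hAm, ← hK] at hk
  have hfin : (A.image f).card ≤ (d - 2) / (m + 1) + 1 := by
    rw [hcard, hnd] at hk
    have h1 : ((m + 1) * (A.image f).card) * K.card ≤ (d + (m + 1) - 2) * K.card := by
      have e1 : ((m + 1) * (A.image f).card) * K.card
        = (A.image f).card * K.card + m * ((A.image f).card * K.card) := by ring
      have e2 : (d + (m + 1) - 2) * K.card + K.card = K.card * d + m * K.card := by
        obtain ⟨d', rfl⟩ := Nat.exists_eq_add_of_le hd2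
        rw [show 2 + d' + (m + 1) - 2 = d' + (m + 1) by omega]
        ring
      rw [hKd] at e2
      omega
    have h2 := Nat.le_of_mul_le_mul_right h1 hKpos
    have h3 : (A.image f).card ≤ (d + (m + 1) - 2) / (m + 1) := by
      rw [Nat.le_div_iff_mul_le (by omega)]
      rw [mul_comm]
      exact h2
    rw [show d + (m + 1) - 2 = d - 2 + (m + 1) by omega, Nat.add_div_right _ (by omega)] at h3
    exact h3
  exact ⟨d, hdn, hd2, hKd, hker, hpre, hcard, hfin⟩

/-- the known upper bound: larger sets are spanning -/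
theorem card_le_v1 (n : ℕ) [NeZero n] {m : ℕ} {A : Finset (ZMod n)}
    (hA : ns A (m + 1) ≠ Finset.univ) : A.card ≤ v1 n (m + 1) := by
  classical
  rcases Finset.eq_empty_or_nonempty A with rfl | hne
  · simp
  obtain ⟨d, hdn, hd2, hKd, hker, hpre, hcard, hfin⟩ := main_data n hne hA
  have h1 : A.card ≤ (A + stab (ns A (m + 1))).card :=
    Finset.card_le_card (subset_add_sub (isSub_stab (ns_nonempty hne _)) A)
  have h2 : (A.image (ZMod.castHom hdn (ZMod d)).toAddMonoidHom).card * (n / d)
      ≤ ((d - 2) / (m + 1) + 1) * (n / d) := Nat.mul_le_mul_right _ hfin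
  have h3 := le_v1 (h := m + 1) (NeZero.ne n) hdn (by omega)
  omega

/-- a divisor which is not `0` or `1` modulo `h` gives density larger than `1/h` -/
lemma dens (n : ℕ) [NeZero n] {m e : ℕ} (he : e ∣ n) (h0 : e % (m + 1) ≠ 0)
    (h1 : e % (m + 1) ≠ 1) : n < (m + 1) * v1 n (m + 1) := by
  have hnpos : 0 < n := NeZero.pos n
  have hepos : 0 < e := Nat.pos_of_dvd_of_pos he hnpos
  have hm : 2 ≤ m := by
    have := Nat.mod_lt e (show 0 < m + 1 by omega)
    omega
  have he1 : e ≠ 1 := by
    rintro rfl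
    apply h1
    exact Nat.mod_eq_of_lt (by omega)
  have h2 := le_v1 (h := m + 1) hnpos.ne' he he1
  have he0 : e ≠ 0 := by omega
  have h3 : e + 1 ≤ (m + 1) * ((e - 2) / (m + 1) + 1) := by
    set q := e / (m + 1) with hq
    set r := e % (m + 1) with hr
    have h4 : (m + 1) * q + r = e := Nat.div_add_mod e (m + 1)
    have h5 : r < m + 1 := Nat.mod_lt _ (by omega)
    have h6 : (e - 2) / (m + 1) = q := by
      have : e - 2 = r - 2 + (m + 1) * q := by omega
      rw [this, Nat.add_mul_div_left _ _ (by omega), Nat.div_eq_of_lt (by omega)]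
      omega
    rw [h6, mul_add]
    omega
  obtain ⟨t, ht⟩ := he
  have htpos : 0 < t := by
    rcases Nat.eq_zero_or_pos t with h7 | h7
    · rw [h7, mul_zero] at ht; omega
    · exact h7
  have h8 : n / e = t := by rw [ht]; exact Nat.mul_div_cancel_left t hepos
  rw [h8] at h2
  have h9 : (e + 1) * t ≤ ((m + 1) * ((e - 2) / (m + 1) + 1)) * t := Nat.mul_le_mul_right _ h3
  have h10 : ((m + 1) * ((e - 2) / (m + 1) + 1)) * t
      = (m + 1) * (((e - 2) / (m + 1) + 1) * t) := by ring
  have h11 : (m + 1) * (((e - 2) / (m + 1) + 1) * t) ≤ (m + 1) * v1 n (m + 1) :=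
    Nat.mul_le_mul_left _ h2
  have h12 : (e + 1) * t = e * t + t := by ring
  rw [← ht] at h12
  omega

/-- **Extremal sets in the case `h v₁ > n`.** -/
theorem forward (n : ℕ) [NeZero n] {m : ℕ} (hm : 2 ≤ m)
    (hdens : n < (m + 1) * v1 n (m + 1)) {A : Finset (ZMod n)}
    (hAc : A.card = v1 n (m + 1)) (hA : ns A (m + 1) ≠ Finset.univ) :
    ∃ (d : ℕ) (hdn : d ∣ n) (a δ : ZMod d), 2 ≤ d ∧
      ((d - 2) / (m + 1) + 1) * (n / d) = v1 n (m + 1) ∧ IsUnit δ ∧
      ∀ x : ZMod n, x ∈ A ↔ ∃ i : ℕ, i ≤ (d - 2) / (m + 1) ∧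
        ZMod.castHom hdn (ZMod d) x = a + i * δ := by
  classical
  have hne : A.Nonempty := by
    rw [← Finset.card_pos]
    rcases Nat.eq_zero_or_pos A.card with h | h
    · rw [← hAc, h, mul_zero] at hdens; omega
    · exact h
  obtain ⟨d, hdn, hd2, hKd, hker, hpre, hcard, hfin⟩ := main_data n hne hA
  set W := ns A (m + 1) with hW
  have hWne : W.Nonempty := ns_nonempty hne _
  set K := stab W with hK
  have hKs : IsSub K := isSub_stab hWne
  have hdpos : 0 < d := by omega
  have : NeZero d := ⟨hdpos.ne'⟩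
  have hKpos : 0 < K.card := Finset.card_pos.2 ⟨0, hKs.zero⟩
  set f : ZMod n →+ ZMod d := (ZMod.castHom hdn (ZMod d)).toAddMonoidHom with hf
  have hfs : Function.Surjective f := ZMod.castHom_surjective hdn
  have hfk : ∀ x, x ∈ K ↔ f x = 0 := hker
  have hnd : n / d = K.card := by
    have h1 : K.card * d / d = K.card := Nat.mul_div_cancel _ hdpos
    rwa [hKd] at h1
  have h1 : A.card ≤ (A + K).card := Finset.card_le_card (subset_add_sub hKs A)
  have h2 : (A.image f).card * (n / d) ≤ ((d - 2) / (m + 1) + 1) * (n / d) :=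
    Nat.mul_le_mul_right _ hfin
  have h3 := le_v1 (h := m + 1) (NeZero.ne n) hdn (by omega)
  have h4 : A = A + K := Finset.eq_of_subset_of_card_le (subset_add_sub hKs A) (by omega)
  have h5 : ((d - 2) / (m + 1) + 1) * (n / d) = v1 n (m + 1) := by omega
  have h6 : (A.image f).card = (d - 2) / (m + 1) + 1 := by
    have h7 : (A.image f).card * (n / d) = ((d - 2) / (m + 1) + 1) * (n / d) := by omega
    rw [hnd] at h7
    exact Nat.eq_of_mul_eq_mul_right hKpos h7
  have hApre : A = pre f (A.image f) := by rw [← hpre]; exact h4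
  set A' := A.image f with hA'
  have hA'ne : A'.Nonempty := hne.image f
  have hAA' : A.card = A'.card * K.card := by
    rw [← hnd, ← hcard, ← h4]
  have him : W.image f = ns A' (m + 1) := image_ns f A (m + 1)
  have hext : ∀ B : Finset (ZMod d), A'.card < B.card → ns B (m + 1) = Finset.univ := by
    intro B hB
    apply ns_pre_univ hfs
    by_contra hcon
    have h7 := card_le_v1 n hcon
    have h8 := card_pre hfs B
    rw [ZMod.card, ZMod.card] at h8
    have h8' : (pre f B).card * d = (B.card * K.card) * d := by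
      rw [h8, mul_assoc, hKd]
    have h9 := Nat.eq_of_mul_eq_mul_right hdpos h8'
    rw [h9, ← hAc, hAA'] at h7
    have := Nat.le_of_mul_le_mul_right h7 hKpos
    omega
  have hlift : ∀ x, f x ∈ W.image f → x ∈ W := by
    intro x hx
    obtain ⟨w, hw, hwx⟩ := Finset.mem_image.1 hx
    have h7 : x - w ∈ K := by rw [hfk, map_sub, hwx, sub_self]
    have := add_mem_of_mem_stab h7 hw
    simpa using this
  have hA'ne' : ns A' (m + 1) ≠ Finset.univ := by
    intro hcon
    apply hA
    rw [Finset.eq_univ_iff_forall]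
    intro x
    apply hlift
    rw [him, hcon]
    exact Finset.mem_univ _
  have hper : (stab (ns A' (m + 1))).card ≤ 1 := by
    rw [Finset.card_le_one]
    have h7 : ∀ s ∈ stab (ns A' (m + 1)), s = 0 := by
      intro s hs
      obtain ⟨t, rfl⟩ := hfs s
      rw [← hfk, hK, mem_stab hWne]
      intro y hy
      apply hlift
      rw [map_add, him]
      apply add_mem_of_mem_stab hs
      rw [← him]
      exact Finset.mem_image_of_mem f hy
    intro s hs t ht
    rw [h7 s hs, h7 t ht]
  have hdens' : Fintype.card (ZMod d) < (m + 1) * A'.card := by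
    rw [ZMod.card]
    rw [← hAc, hAA'] at hdens
    have h7 : K.card * d < K.card * ((m + 1) * A'.card) := by
      rw [hKd]
      calc n < (m + 1) * (A'.card * K.card) := hdens
        _ = K.card * ((m + 1) * A'.card) := by ring
    exact Nat.lt_of_mul_lt_mul_left h7
  obtain ⟨a, δ, hgen, hAP⟩ := aperiodic_case hm hA'ne hA'ne' hper hext hdens'
    (fun K A₀ hK hA₀ hne₀ => cyc_ext d hext K A₀ hK hA₀ hne₀)
  refine ⟨d, hdn, a, δ, hd2, h5, ?_, ?_⟩
  · obtain ⟨k, hk⟩ := AddSubgroup.mem_zmultiples_iff.1 (hgen 1)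
    rw [zsmul_eq_mul] at hk
    exact IsUnit.of_mul_eq_one (k : ZMod d) (by rw [mul_comm]; exact hk)
  · intro x
    have h7 : x ∈ A ↔ f x ∈ A' := by
      constructor
      · intro hx; exact Finset.mem_image_of_mem f hx
      · intro hx
        rw [hApre, mem_pre]
        exact hx
    rw [h7, hAP, Finset.mem_image, h6]
    constructor
    · rintro ⟨i, hi, hix⟩
      rw [Finset.mem_range] at hi
      refine ⟨i, by omega, ?_⟩
      rw [← nsmul_eq_mul]
      exact hix.symm
    · rintro ⟨i, hi, hix⟩
      refine ⟨i, by rw [Finset.mem_range]; omega, ?_⟩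
      rw [nsmul_eq_mul]
      exact hix.symm

/-- **The converse.** -/
theorem backward (n : ℕ) [NeZero n] {m : ℕ} {A : Finset (ZMod n)}
    (h : ∃ (d : ℕ) (hdn : d ∣ n) (a δ : ZMod d), 2 ≤ d ∧
      ((d - 2) / (m + 1) + 1) * (n / d) = v1 n (m + 1) ∧ IsUnit δ ∧
      ∀ x : ZMod n, x ∈ A ↔ ∃ i : ℕ, i ≤ (d - 2) / (m + 1) ∧
        ZMod.castHom hdn (ZMod d) x = a + i * δ) :
    A.card = v1 n (m + 1) ∧ ns A (m + 1) ≠ Finset.univ := by
  classical
  obtain ⟨d, hdn, a, δ, hd2, hv, hδ, hA⟩ := h
  have : NeZero d := ⟨by omega⟩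
  set f : ZMod n →+ ZMod d := (ZMod.castHom hdn (ZMod d)).toAddMonoidHom with hf
  have hfs : Function.Surjective f := ZMod.castHom_surjective hdn
  set c := (d - 2) / (m + 1) with hc
  have hcd : (m + 1) * c ≤ d - 2 := Nat.mul_div_le _ _
  set A' : Finset (ZMod d) := (Finset.range (c + 1)).image (fun i : ℕ => a + i * δ) with hA'
  have hAA : A = pre f A' := by
    ext x
    rw [hA, mem_pre, hA', Finset.mem_image]
    constructor
    · rintro ⟨i, hi, hix⟩
      exact ⟨i, by rw [Finset.mem_range]; omega, hix.symm⟩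
    · rintro ⟨i, hi, hix⟩
      rw [Finset.mem_range] at hi
      exact ⟨i, by omega, hix.symm⟩
  have hA'c : A'.card = c + 1 := by
    rw [hA', Finset.card_image_of_injOn, Finset.card_range]
    intro i hi j hj hij
    rw [Finset.mem_coe, Finset.mem_range] at hi hj
    have h1 : (i : ZMod d) * δ = j * δ := add_left_cancel hij
    have h2 := hδ.mul_right_cancel h1
    rw [ZMod.natCast_eq_natCast_iff'] at h2
    have h3 : c ≤ (m + 1) * c := Nat.le_mul_of_pos_left _ (by omega)
    rwa [Nat.mod_eq_of_lt (by omega), Nat.mod_eq_of_lt (by omega)] at h2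
  constructor
  · have h1 := card_pre hfs A'
    rw [ZMod.card, ZMod.card, ← hAA, hA'c] at h1
    obtain ⟨t, ht⟩ := hdn
    have hnd : n / d = t := by rw [ht]; exact Nat.mul_div_cancel_left t (by omega)
    rw [← hv, hnd]
    have h2 : A.card * d = ((c + 1) * t) * d := by
      rw [h1, ht]; ring
    exact Nat.eq_of_mul_eq_mul_right (by omega) h2
  · intro hcon
    rw [hAA] at hcon
    have h1 := ns_pre_univ hfs hcon
    -- the sumset of the progression
    have h2 : ∀ j : ℕ, ns A' j ⊆ (Finset.range (j * c + 1)).image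
        (fun i : ℕ => (j : ZMod d) * a + i * δ) := by
      intro j
      induction j with
      | zero => intro x hx; simpa [ns_zero] using hx
      | succ j ih =>
        intro x hx
        rw [ns_succ] at hx
        obtain ⟨u, hu, v, hv', rfl⟩ := Finset.mem_add.1 hx
        obtain ⟨i, hi, rfl⟩ := Finset.mem_image.1 (ih hu)
        obtain ⟨k, hk, rfl⟩ := Finset.mem_image.1 hv'
        rw [Finset.mem_range] at hi hk
        rw [Finset.mem_image]
        refine ⟨i + k, ?_, ?_⟩
        · rw [Finset.mem_range]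
          have : (j + 1) * c = j * c + c := by ring
          omega
        · push_cast
          ring
    have h3 := Finset.card_le_card (h2 (m + 1))
    rw [h1, Finset.card_univ, ZMod.card] at h3
    have h4 : ((Finset.range ((m + 1) * c + 1)).image
        (fun i : ℕ => ((m + 1 : ℕ) : ZMod d) * a + i * δ)).card ≤ (m + 1) * c + 1 := by
      have := Finset.card_image_le (s := Finset.range ((m + 1) * c + 1))
        (f := fun i : ℕ => ((m + 1 : ℕ) : ZMod d) * a + i * δ)
      rwa [Finset.card_range] at this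
    omega

end Pool.Agent.Helper20.Span
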